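import Mathlib

/-!
ROW ZA.  Choice of `z` and `k0`, asymptotics.
PROOF.  `L = log x`, `ℓ = log L`, `s = 16 r ≤ 16 L^(1/8)`, `θ = L/(C₀ s)`, `z = ⌊exp θ⌋₊`, so `z^(C₀ s) ≤ x` and
`log z ≥ θ - log 2 ≥ θ/2 = L/(2 C₀ s)`; `θ ≤ L/16` gives `2 z ≤ ⌊sqrt x⌋₊` (large `x`); `θ ≥ L^(7/8)/(16 C₀) ≥ 8 ℓ + 2`
(as `2^i0 ≤ 2^(6ℓ+1) = 2 exp(6 ℓ log 2)`).
`k0 = ⌊ℓ/(2 log 2)⌋₊`: `2^k0 ≤ exp(ℓ/2) = L^(1/2) < 2^(k0+1)`, `k0 ≤ i0`, `2 s ≤ 32 L^(1/8) ≤ L^(1/2)/2 ≤ 2^k0`.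
Bases: `C 2^k0 log(2s)/log z ≤ C L^(1/2) log(2s) 32 C₀ r/L ≤ L^(-1/4)` since `r log(32 r) ≤ L^(1/8) log (32 L^(1/8))`;
`i0 (C log(2s)/log z + 2 s/2^k0) ≤ (7 ℓ) (L^(-3/4) + 64 L^(1/8) L^(-1/2)) ≤ L^(-1/4)`.  `L^(-1/4) = exp (-ℓ/4)`.
-/

open Filter

namespace RD69

theorem ZA_two : (2 : ℝ) ≤ Real.exp 1 := by
  have := Real.exp_one_gt_d9
  linarith

theorem ZA_pow (k : ℕ) : (2 : ℝ) ^ k = Real.exp (k * Real.log 2) := by
  rw [Real.exp_nat_mul, Real.exp_log (by norm_num)]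

theorem choice_zk (C : ℝ) (C₀ : ℕ) (hC : 1 ≤ C) (hC₀ : 1 ≤ C₀) : ∀ᶠ x : ℕ in atTop, ∀ r : ℕ,
    1 ≤ r → (r : ℝ) ≤ Real.exp (Real.log (Real.log x) / 8) → ∃ z k0 : ℕ,
      2 * (16 * r) ≤ 2 ^ k0 ∧ k0 ≤ ⌈6 * Real.log (Real.log x)⌉₊ ∧
      2 ^ ⌈6 * Real.log (Real.log x)⌉₊ ≤ z ∧ z ^ (C₀ * (16 * r)) ≤ x ∧
      2 * z ≤ ⌊Real.sqrt x⌋₊ ∧
      C * 2 ^ k0 * Real.log (2 * (16 * r : ℕ)) / Real.log z ≤
        Real.exp (-(Real.log (Real.log x) / 4)) ∧
      (⌈6 * Real.log (Real.log x)⌉₊ : ℝ) * (C * Real.log (2 * (16 * r : ℕ)) / Real.log z +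
        2 * (16 * r : ℕ) / 2 ^ k0) ≤ Real.exp (-(Real.log (Real.log x) / 4)) := by
  have hlog : Tendsto (fun x : ℕ => Real.log x) atTop atTop :=
    Real.tendsto_log_atTop.comp tendsto_natCast_atTop_atTop
  have hloglog : Tendsto (fun x : ℕ => Real.log (Real.log x)) atTop atTop :=
    Real.tendsto_log_atTop.comp hlog
  have hE : ∀ᶠ y : ℝ in atTop, 7 * y * (32 * C * C₀ * y + 64) ≤ Real.exp (y / 8) := by
    have h1 : Tendsto (fun y : ℝ => Real.exp y / y ^ 2) atTop atTop :=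
      Real.tendsto_exp_div_pow_atTop 2
    have h2 : Tendsto (fun y : ℝ => y / 8) atTop atTop :=
      tendsto_id.atTop_div_const (by norm_num)
    filter_upwards [(h1.comp h2).eventually (eventually_ge_atTop (448 * (32 * C * C₀ + 64))),
      eventually_ge_atTop (1 : ℝ)] with y hy hy2
    have hy3 : 448 * (32 * C * C₀ + 64) ≤ Real.exp (y / 8) / (y / 8) ^ 2 := hy
    rw [le_div_iff₀ (by positivity)] at hy3
    have hCC : 0 ≤ 32 * C * (C₀ : ℝ) := by positivity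
    have h5 : 7 * y * (32 * C * C₀ * y + 64) ≤ 448 * (32 * C * C₀ + 64) * (y / 8) ^ 2 := by
      have h6 : 448 * (32 * C * C₀ + 64) * (y / 8) ^ 2 = 7 * y * (32 * C * C₀ * y + 64 * y) := by
        ring
      rw [h6]
      have h7 : 32 * C * C₀ * y + 64 ≤ 32 * C * C₀ * y + 64 * y := by linarith
      exact mul_le_mul_of_nonneg_left h7 (by positivity)
    linarith
  filter_upwards [hloglog.eventually hE, hloglog.eventually (eventually_ge_atTop (100 : ℝ)),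
    hlog.eventually (eventually_ge_atTop (100 : ℝ)), eventually_ge_atTop 1] with x hEx hx2 hx3 hx1
  intro r hr hrL
  set L : ℝ := Real.log x with hL
  set ℓ : ℝ := Real.log L with hℓ
  set i0 : ℕ := ⌈6 * ℓ⌉₊ with hi0
  have hL0 : 0 < L := by linarith
  have hℓ0 : 0 < ℓ := by linarith
  have hx0 : (0 : ℝ) < x := by exact_mod_cast hx1
  have hC0 : 0 < C := by linarith
  have hCr : (1 : ℝ) ≤ C₀ := by exact_mod_cast hC₀
  have hC00 : (0 : ℝ) < C₀ := by linarith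
  have hr1 : (1 : ℝ) ≤ r := by exact_mod_cast hr
  have hr0 : (0 : ℝ) < r := by linarith
  have hLe : L = Real.exp ℓ := by rw [hℓ, Real.exp_log hL0]
  have hxe : (x : ℝ) = Real.exp L := by rw [hL, Real.exp_log hx0]
  have hi0l : 6 * ℓ ≤ i0 := Nat.le_ceil _
  have hi0u : (i0 : ℝ) ≤ 6 * ℓ + 1 := (Nat.ceil_lt_add_one (by positivity : 0 ≤ 6 * ℓ)).le
  have hl2 := Real.log_two_gt_d9
  have hl2' := Real.log_two_lt_d9
  have hl2pos : 0 < Real.log 2 := by linarith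
  -- consequences of `hEx`
  have hCC1 : 1 ≤ C * (C₀ : ℝ) := by nlinarith
  have hE1 : 32 * C * C₀ * ℓ ≤ Real.exp (ℓ / 8) := by
    refine le_trans ?_ hEx
    have h1 : 0 ≤ 32 * C * C₀ * ℓ := by positivity
    have h2 : (1 : ℝ) ≤ 7 * ℓ := by linarith
    calc 32 * C * C₀ * ℓ ≤ 1 * (32 * C * C₀ * ℓ + 64) := by linarith
      _ ≤ 7 * ℓ * (32 * C * C₀ * ℓ + 64) := mul_le_mul_of_nonneg_right h2 (by positivity)
  -- the parameter `θ`
  set θ : ℝ := L / (16 * C₀ * r) with hθ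
  have hθ0 : 0 < θ := by positivity
  have hθl : 7 * ℓ ≤ θ := by
    rw [hθ, le_div_iff₀ (by positivity)]
    have h1 : L = Real.exp (ℓ / 8) * Real.exp (7 * ℓ / 8) := by
      rw [hLe, ← Real.exp_add]; congr 1; ring
    have h2 : 112 * C₀ * ℓ ≤ Real.exp (7 * ℓ / 8) := by
      have h3 : Real.exp (ℓ / 8) ≤ Real.exp (7 * ℓ / 8) := Real.exp_le_exp.2 (by linarith)
      refine le_trans (le_trans ?_ hEx) h3
      have h4 : (C₀ : ℝ) ≤ C * C₀ := by nlinarith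
      have h5 : 112 * (C₀ : ℝ) * ℓ ≤ 7 * ℓ * (32 * C * C₀ * ℓ) := by
        have h6 : 7 * ℓ * (32 * C * C₀ * ℓ) = 224 * (C * C₀) * ℓ * ℓ := by ring
        rw [h6]
        have h7 : 112 * (C₀ : ℝ) * ℓ ≤ 224 * (C * C₀) * ℓ * 1 := by
          have h8 : (C₀ : ℝ) * ℓ ≤ C * C₀ * ℓ := mul_le_mul_of_nonneg_right h4 hℓ0.le
          have h9 : 0 ≤ C * C₀ * ℓ := by positivity
          linarith
        refine h7.trans ?_
        exact mul_le_mul_of_nonneg_left (by linarith) (by positivity)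
      have h10 : 7 * ℓ * (32 * C * C₀ * ℓ) ≤ 7 * ℓ * (32 * C * C₀ * ℓ + 64) :=
        mul_le_mul_of_nonneg_left (by linarith) (by positivity)
      linarith
    calc 7 * ℓ * (16 * C₀ * r) = r * (112 * C₀ * ℓ) := by ring
      _ ≤ Real.exp (ℓ / 8) * Real.exp (7 * ℓ / 8) :=
          mul_le_mul hrL h2 (by positivity) (Real.exp_pos _).le
      _ = L := h1.symm
  have hθu : θ ≤ L / 16 := by
    rw [hθ]
    apply div_le_div_of_nonneg_left hL0.le (by norm_num)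
    nlinarith
  set z : ℕ := ⌊Real.exp θ⌋₊ with hz
  have hz1 : (z : ℝ) ≤ Real.exp θ := Nat.floor_le (Real.exp_pos _).le
  have hz2 : Real.exp θ < z + 1 := Nat.lt_floor_add_one _
  have hz3 : Real.exp (θ - 1) ≤ z := by
    have h1 : Real.exp θ = Real.exp (θ - 1) * Real.exp 1 := by
      rw [← Real.exp_add]; congr 1; ring
    have h2 := ZA_two
    have h3 : 1 ≤ Real.exp (θ - 1) := Real.one_le_exp (by linarith)
    nlinarith
  have hz0 : (0 : ℝ) < z := lt_of_lt_of_le (Real.exp_pos _) hz3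
  have hlz : θ / 2 ≤ Real.log z := by
    have h1 := Real.log_le_log (Real.exp_pos _) hz3
    rw [Real.log_exp] at h1
    linarith
  have hlz0 : 0 < Real.log z := by linarith
  -- the parameter `k0`
  set k0 : ℕ := ⌊ℓ / (2 * Real.log 2)⌋₊ with hk0
  have hk1 : (k0 : ℝ) ≤ ℓ / (2 * Real.log 2) := Nat.floor_le (by positivity)
  have hk2 : ℓ / (2 * Real.log 2) < k0 + 1 := Nat.lt_floor_add_one _
  have hp1 : (2 : ℝ) ^ k0 ≤ Real.exp (ℓ / 2) := by
    rw [ZA_pow]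
    apply Real.exp_le_exp.2
    rw [le_div_iff₀ (by positivity)] at hk1
    linarith
  have hp2 : Real.exp (ℓ / 2) ≤ (2 : ℝ) ^ k0 * 2 := by
    rw [← pow_succ, ZA_pow]
    apply Real.exp_le_exp.2
    rw [div_lt_iff₀ (by positivity)] at hk2
    push_cast
    linarith
  have hp0 : (0 : ℝ) < 2 ^ k0 := by positivity
  -- the logarithm of `32 r`
  have hcast : (2 : ℝ) * ((16 * r : ℕ) : ℝ) = 32 * r := by push_cast; ring
  have hlr : Real.log (32 * r) ≤ ℓ := by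
    rw [Real.log_mul (by norm_num) hr0.ne']
    have h1 : Real.log (32 : ℝ) ≤ 4 := by
      have : (32 : ℝ) = 2 ^ 5 := by norm_num
      rw [this, Real.log_pow]
      push_cast
      linarith
    have h2 : Real.log r ≤ ℓ / 8 := by
      have := Real.log_le_log hr0 hrL
      rwa [Real.log_exp] at this
    linarith
  have hlr0 : 0 < Real.log (32 * r) := Real.log_pos (by linarith)
  have hmain : C * Real.log (32 * r) / Real.log z ≤
      32 * C * C₀ * ℓ * Real.exp (-(7 * ℓ / 8)) := by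
    have h1 : C * Real.log (32 * r) / Real.log z ≤ C * ℓ / (θ / 2) := by
      gcongr
    have h2 : C * ℓ / (θ / 2) = 32 * C * C₀ * ℓ * (r / L) := by
      rw [hθ]; field_simp; norm_num
    have h3 : (r : ℝ) / L ≤ Real.exp (-(7 * ℓ / 8)) := by
      rw [div_le_iff₀ hL0]
      have h4 : Real.exp (-(7 * ℓ / 8)) * L = Real.exp (ℓ / 8) := by
        rw [hLe, ← Real.exp_add]; congr 1; ring
      rw [h4]; exact hrL
    rw [h2] at h1
    refine h1.trans (mul_le_mul_of_nonneg_left h3 (by positivity))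
  refine ⟨z, k0, ?_, ?_, ?_, ?_, ?_, ?_, ?_⟩
  · -- 32 r ≤ 2^k0
    have h1 : ((2 * (16 * r) : ℕ) : ℝ) ≤ (2 : ℝ) ^ k0 := by
      push_cast
      have h2 : Real.exp (ℓ / 2) = Real.exp (ℓ / 8) * Real.exp (3 * ℓ / 8) := by
        rw [← Real.exp_add]; congr 1; ring
      have h3 : 64 ≤ Real.exp (3 * ℓ / 8) := by
        have h4 := Real.quadratic_le_exp_of_nonneg (by positivity : (0 : ℝ) ≤ 3 * ℓ / 8)
        nlinarith
      have h5 : (r : ℝ) * 64 ≤ Real.exp (ℓ / 8) * Real.exp (3 * ℓ / 8) :=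
        mul_le_mul hrL h3 (by norm_num) (Real.exp_pos _).le
      rw [h2] at hp2
      linarith
    exact_mod_cast h1
  · have h1 : (k0 : ℝ) ≤ i0 := by
      refine hk1.trans ?_
      rw [div_le_iff₀ (by positivity)]
      nlinarith
    exact_mod_cast h1
  · have h1 : ((2 ^ i0 : ℕ) : ℝ) ≤ z := by
      push_cast
      refine le_trans ?_ hz3
      rw [ZA_pow]
      apply Real.exp_le_exp.2
      have h3 : (i0 : ℝ) * Real.log 2 ≤ (6 * ℓ + 1) * 0.7 := by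
        apply mul_le_mul hi0u (by linarith) hl2pos.le (by positivity)
      linarith
    exact_mod_cast h1
  · have h1 : ((z ^ (C₀ * (16 * r)) : ℕ) : ℝ) ≤ x := by
      push_cast
      calc (z : ℝ) ^ (C₀ * (16 * r)) ≤ (Real.exp θ) ^ (C₀ * (16 * r)) :=
            pow_le_pow_left₀ hz0.le hz1 _
        _ = Real.exp (θ * (16 * C₀ * r)) := by
            rw [← Real.exp_nat_mul]
            congr 1
            push_cast
            ring
        _ = x := by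
            rw [hθ, div_mul_cancel₀ _ (by positivity), ← hxe]
    exact_mod_cast h1
  · apply Nat.le_floor
    push_cast
    rw [Real.sqrt_eq_rpow, Real.rpow_def_of_pos hx0]
    have h1 : Real.log x * (1 / 2) = L / 2 := by rw [← hL]; ring
    rw [h1]
    calc 2 * (z : ℝ) ≤ Real.exp 1 * Real.exp θ :=
          mul_le_mul ZA_two hz1 hz0.le (Real.exp_pos _).le
      _ = Real.exp (1 + θ) := by rw [Real.exp_add]
      _ ≤ Real.exp (L / 2) := Real.exp_le_exp.2 (by linarith)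
  · rw [hcast]
    have h1 : C * 2 ^ k0 * Real.log (32 * r) / Real.log z =
        2 ^ k0 * (C * Real.log (32 * r) / Real.log z) := by ring
    rw [h1]
    calc 2 ^ k0 * (C * Real.log (32 * r) / Real.log z)
        ≤ Real.exp (ℓ / 2) * (32 * C * C₀ * ℓ * Real.exp (-(7 * ℓ / 8))) :=
          mul_le_mul hp1 hmain (by positivity) (Real.exp_pos _).le
      _ ≤ Real.exp (ℓ / 2) * (Real.exp (ℓ / 8) * Real.exp (-(7 * ℓ / 8))) := by gcongr
      _ = Real.exp (-(ℓ / 4)) := by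
          rw [← Real.exp_add, ← Real.exp_add]; congr 1; ring
  · rw [hcast]
    have h1 : 32 * (r : ℝ) / 2 ^ k0 ≤ 64 * Real.exp (-(3 * ℓ / 8)) := by
      rw [div_le_iff₀ hp0]
      have h2 : Real.exp (-(3 * ℓ / 8)) * Real.exp (ℓ / 2) = Real.exp (ℓ / 8) := by
        rw [← Real.exp_add]; congr 1; ring
      have h3 : Real.exp (-(3 * ℓ / 8)) * Real.exp (ℓ / 2) ≤
          Real.exp (-(3 * ℓ / 8)) * (2 ^ k0 * 2) :=
        mul_le_mul_of_nonneg_left hp2 (Real.exp_pos _).le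
      rw [h2] at h3
      linarith
    have h2 : 32 * C * C₀ * ℓ * Real.exp (-(7 * ℓ / 8)) ≤
        32 * C * C₀ * ℓ * Real.exp (-(3 * ℓ / 8)) := by
      apply mul_le_mul_of_nonneg_left _ (by positivity)
      exact Real.exp_le_exp.2 (by linarith)
    have h3 : C * Real.log (32 * r) / Real.log z + 32 * r / 2 ^ k0 ≤
        (32 * C * C₀ * ℓ + 64) * Real.exp (-(3 * ℓ / 8)) := by linarith
    have h4 : (i0 : ℝ) ≤ 7 * ℓ := by linarith
    calc (i0 : ℝ) * (C * Real.log (32 * r) / Real.log z + 32 * r / 2 ^ k0)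
        ≤ 7 * ℓ * ((32 * C * C₀ * ℓ + 64) * Real.exp (-(3 * ℓ / 8))) :=
          mul_le_mul h4 h3 (by positivity) (by positivity)
      _ = 7 * ℓ * (32 * C * C₀ * ℓ + 64) * Real.exp (-(3 * ℓ / 8)) := by ring
      _ ≤ Real.exp (ℓ / 8) * Real.exp (-(3 * ℓ / 8)) :=
          mul_le_mul_of_nonneg_right hEx (Real.exp_pos _).le
      _ = Real.exp (-(ℓ / 4)) := by rw [← Real.exp_add]; congr 1; ring

end RD69
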