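import Pool.Agent.LibRD69B.MT
import Pool.Agent.LibRD69B.ZA

/-!
ROW CA.  The middle distances for `r ≤ (log x)^(1/8)`.
PROOF.  `mid_count` with `s = 16 r`, `i0 = ⌈6 log log x⌉₊`, `z, k0` from `choice_zk`: both powers are
`≤ exp(-(ℓ/4))^(16 r) = exp (-4 r ℓ)`, the total is `≤ 18 (1 + i0) x exp (-4 r ℓ) ≤ x exp (-2 r ℓ)` for large `x`
(`18 (7 ℓ + 2) ≤ exp (2 ℓ)`, `r ≥ 1`).  For `⌊sqrt x⌋₊ < n` and `i < 2^i0 ≤ z`: `n - i > 2 z - z = z`, so the filter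
condition `z < n - i` is automatic.
-/

open Finset Filter

namespace RD69

theorem mid_small_r : ∀ᶠ x : ℕ in atTop, ∀ r : ℕ, 1 ≤ r →
    (r : ℝ) ≤ Real.exp (Real.log (Real.log x) / 8) →
    (#{n ∈ Icc 1 x | ⌊Real.sqrt x⌋₊ < n ∧
        2 < ∑ i ∈ (dist n).filter (fun i => 4 * (16 * r) ≤ i ∧
          i < 2 ^ ⌈6 * Real.log (Real.log x)⌉₊), 1 / (i : ℝ)} : ℝ) ≤
      x * Real.exp (-(2 * r * Real.log (Real.log x))) := by
  classical
  obtain ⟨C, C₀, hC, hC₀, hm⟩ := mid_count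
  have hlog : Tendsto (fun x : ℕ => Real.log x) atTop atTop :=
    Real.tendsto_log_atTop.comp tendsto_natCast_atTop_atTop
  have hloglog : Tendsto (fun x : ℕ => Real.log (Real.log x)) atTop atTop :=
    Real.tendsto_log_atTop.comp hlog
  filter_upwards [choice_zk C C₀ hC hC₀, hloglog.eventually (eventually_ge_atTop (100 : ℝ)),
    eventually_ge_atTop 1] with x hzk hx2 hx1
  intro r hr hrL
  obtain ⟨z, k0, h1, h2, h3, h4, h5, h6, h7⟩ := hzk r hr hrL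
  set ℓ : ℝ := Real.log (Real.log x) with hℓ
  set i0 : ℕ := ⌈6 * ℓ⌉₊ with hi0
  have hℓ0 : 0 < ℓ := by linarith
  have hx0 : (0 : ℝ) < x := by exact_mod_cast hx1
  have hr1 : (1 : ℝ) ≤ r := by exact_mod_cast hr
  have hi0u : (i0 : ℝ) ≤ 7 * ℓ := by
    have := (Nat.ceil_lt_add_one (by positivity : 0 ≤ 6 * ℓ)).le
    linarith
  have hz2 : 2 ≤ z := by
    have h8 : 2 ^ k0 ≤ 2 ^ i0 := Nat.pow_le_pow_right (by norm_num) h2
    omega
  have hlz : 0 < Real.log z := Real.log_pos (by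
    have : (2 : ℝ) ≤ z := by exact_mod_cast hz2
    linarith)
  have hls : 0 < Real.log (2 * ((16 * r : ℕ) : ℝ)) := Real.log_pos (by push_cast; linarith)
  have hC0 : 0 ≤ C := by linarith
  have hmc := hm (16 * r) x z k0 i0 (by omega) h1 h2 h3 h4
  have hsub : {n ∈ Icc 1 x | ⌊Real.sqrt x⌋₊ < n ∧
        2 < ∑ i ∈ (dist n).filter (fun i => 4 * (16 * r) ≤ i ∧ i < 2 ^ i0), 1 / (i : ℝ)} ⊆
      {n ∈ Icc 1 x | 2 < ∑ i ∈ (dist n).filter
        (fun i => 4 * (16 * r) ≤ i ∧ i < 2 ^ i0 ∧ z < n - i), 1 / (i : ℝ)} := by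
    intro n hn
    rw [mem_filter] at hn ⊢
    refine ⟨hn.1, ?_⟩
    have h8 : (dist n).filter (fun i => 4 * (16 * r) ≤ i ∧ i < 2 ^ i0) =
        (dist n).filter (fun i => 4 * (16 * r) ≤ i ∧ i < 2 ^ i0 ∧ z < n - i) := by
      apply filter_congr
      intro i _
      constructor
      · intro h
        have := hn.2.1
        exact ⟨h.1, h.2, by omega⟩
      · intro h
        exact ⟨h.1, h.2.1⟩
    rw [← h8]
    exact hn.2.2
  have hcard : (#{n ∈ Icc 1 x | ⌊Real.sqrt x⌋₊ < n ∧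
        2 < ∑ i ∈ (dist n).filter (fun i => 4 * (16 * r) ≤ i ∧ i < 2 ^ i0), 1 / (i : ℝ)} : ℝ) ≤
      (#{n ∈ Icc 1 x | 2 < ∑ i ∈ (dist n).filter
        (fun i => 4 * (16 * r) ≤ i ∧ i < 2 ^ i0 ∧ z < n - i), 1 / (i : ℝ)} : ℝ) := by
    exact_mod_cast card_le_card hsub
  refine hcard.trans (hmc.trans ?_)
  have hp : Real.exp (-(ℓ / 4)) ^ (16 * r) = Real.exp (-(4 * r * ℓ)) := by
    rw [← Real.exp_nat_mul]
    congr 1
    push_cast
    ring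
  have hA : (C * 2 ^ k0 * Real.log (2 * ((16 * r : ℕ) : ℝ)) / Real.log z) ^ (16 * r) ≤
      Real.exp (-(4 * r * ℓ)) := by
    rw [← hp]
    exact pow_le_pow_left₀ (by positivity) h6 _
  have hB : ((i0 : ℝ) * (C * Real.log (2 * ((16 * r : ℕ) : ℝ)) / Real.log z +
      2 * ((16 * r : ℕ) : ℝ) / 2 ^ k0)) ^ (16 * r) ≤ Real.exp (-(4 * r * ℓ)) := by
    rw [← hp]
    exact pow_le_pow_left₀ (by positivity) h7 _
  have hfin : 18 * (1 + (i0 : ℝ)) * Real.exp (-(4 * r * ℓ)) ≤ Real.exp (-(2 * r * ℓ)) := by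
    have h8 : Real.exp (-(4 * r * ℓ)) = Real.exp (-(2 * r * ℓ)) * Real.exp (-(2 * r * ℓ)) := by
      rw [← Real.exp_add]; congr 1; ring
    have h9 : Real.exp (-(2 * r * ℓ)) ≤ Real.exp (-(2 * ℓ)) := by
      apply Real.exp_le_exp.2
      have : 1 * ℓ ≤ r * ℓ := mul_le_mul_of_nonneg_right hr1 hℓ0.le
      linarith
    have h10 : 18 * (1 + (i0 : ℝ)) ≤ Real.exp (2 * ℓ) := by
      have h11 := Real.quadratic_le_exp_of_nonneg (by positivity : (0 : ℝ) ≤ 2 * ℓ)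
      nlinarith
    have h11 : 18 * (1 + (i0 : ℝ)) * Real.exp (-(2 * r * ℓ)) ≤ 1 := by
      calc 18 * (1 + (i0 : ℝ)) * Real.exp (-(2 * r * ℓ)) ≤ Real.exp (2 * ℓ) * Real.exp (-(2 * ℓ)) :=
            mul_le_mul h10 h9 (Real.exp_pos _).le (Real.exp_pos _).le
        _ = 1 := by rw [← Real.exp_add]; simp
    rw [h8, ← mul_assoc]
    have h12 := Real.exp_pos (-(2 * r * ℓ))
    nlinarith
  calc 18 * x * (C * 2 ^ k0 * Real.log (2 * ((16 * r : ℕ) : ℝ)) / Real.log z) ^ (16 * r) +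
      i0 * (18 * x * (i0 * (C * Real.log (2 * ((16 * r : ℕ) : ℝ)) / Real.log z +
        2 * ((16 * r : ℕ) : ℝ) / 2 ^ k0)) ^ (16 * r))
      ≤ 18 * x * Real.exp (-(4 * r * ℓ)) + i0 * (18 * x * Real.exp (-(4 * r * ℓ))) := by
        gcongr
    _ = x * (18 * (1 + (i0 : ℝ)) * Real.exp (-(4 * r * ℓ))) := by ring
    _ ≤ x * Real.exp (-(2 * r * ℓ)) := mul_le_mul_of_nonneg_left hfin hx0.le

end RD69
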