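import Mathlib

/-!
ROW LA.  Asymptotics for the count over all long scales.
PROOF.  `L = log x`, `ℓ = log L`, `m = log ℓ`.  For large `x`: `log (8 ℓ) ≤ 2 m`, so the first exponent is
`≤ -L/(32 C ℓ m)`, and `(L + 1) * 3 * exp (-L/(32 C ℓ m)) ≤ (1/2) exp (-L/(64 C ℓ m))` since `L/(64 C ℓ m) ≥ log (6 (L+1))`
(`L = exp ℓ`, `exp ℓ / ℓ^2 → ∞`); `(L + 1) exp (L/8) ≤ (1/2) exp (L/2) ≤ (1/2) x exp(-L/(64 C ℓ m))`.
-/

open Filter

namespace RD69

theorem long_asymp (C : ℝ) (hC : 1 ≤ C) : ∀ᶠ x : ℕ in atTop,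
    (Real.log x + 1) * (3 * x * Real.exp (-(Real.log x /
        (16 * C * Real.log (Real.log x) * Real.log (8 * Real.log (Real.log x)))))
      + Real.exp (Real.log x / 8)) ≤
    x * Real.exp (-(1 / (64 * C) * Real.log x /
        (Real.log (Real.log x) * Real.log (Real.log (Real.log x))))) := by
  have hlog : Tendsto (fun x : ℕ => Real.log x) atTop atTop :=
    Real.tendsto_log_atTop.comp tendsto_natCast_atTop_atTop
  have hloglog : Tendsto (fun x : ℕ => Real.log (Real.log x)) atTop atTop :=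
    Real.tendsto_log_atTop.comp hlog
  have hE : ∀ᶠ y : ℝ in atTop, 128 * C * y ^ 3 ≤ Real.exp y := by
    have h1 : Tendsto (fun y : ℝ => Real.exp y / y ^ 3) atTop atTop :=
      Real.tendsto_exp_div_pow_atTop 3
    filter_upwards [h1.eventually (eventually_ge_atTop (128 * C)),
      eventually_gt_atTop (0 : ℝ)] with y hy hy2
    rwa [le_div_iff₀ (by positivity)] at hy
  filter_upwards [hloglog.eventually hE, hloglog.eventually (eventually_ge_atTop (100 : ℝ)),
    hlog.eventually (eventually_ge_atTop (100 : ℝ)), eventually_ge_atTop 1] with x hEx hx2 hx3 hx4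
  set L : ℝ := Real.log x with hL
  set ℓ : ℝ := Real.log L with hℓ
  set m : ℝ := Real.log ℓ with hm
  have hL0 : 0 < L := by linarith
  have hℓ0 : 0 < ℓ := by linarith
  have hx0 : (0 : ℝ) < x := by exact_mod_cast hx4
  have hC0 : 0 < C := by linarith
  have hLe : L = Real.exp ℓ := by rw [hℓ, Real.exp_log hL0]
  have hxe : (x : ℝ) = Real.exp L := by rw [hL, Real.exp_log hx0]
  have hm1 : 4 ≤ m := by
    rw [hm, Real.le_log_iff_exp_le hℓ0]
    have h1 := Real.exp_one_lt_d9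
    have h2 : Real.exp 4 = Real.exp 1 ^ 4 := by rw [← Real.exp_nat_mul]; norm_num
    have h3 : Real.exp 1 ^ 4 ≤ 2.72 ^ 4 :=
      pow_le_pow_left₀ (Real.exp_pos 1).le (by linarith) 4
    have h4 : (2.72 : ℝ) ^ 4 ≤ 100 := by norm_num
    linarith
  have hm0 : 0 < m := by linarith
  have hmℓ : m ≤ ℓ := by
    have := Real.log_le_sub_one_of_pos hℓ0
    linarith
  set E : ℝ := 1 / (64 * C) * L / (ℓ * m) with hEd
  have hE2 : 2 * E ≤ L / (16 * C * ℓ * Real.log (8 * ℓ)) := by
    have h1 : Real.log (8 * ℓ) ≤ 2 * m := by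
      rw [Real.log_mul (by norm_num) hℓ0.ne']
      have h2 : Real.log 8 ≤ m := Real.log_le_log (by norm_num) (by linarith)
      linarith
    have h2 : 0 < Real.log (8 * ℓ) := Real.log_pos (by linarith)
    have h3 : 2 * E = L / (16 * C * ℓ * (2 * m)) := by
      rw [hEd]; field_simp; norm_num
    rw [h3]
    exact div_le_div_of_nonneg_left hL0.le (by positivity)
      (mul_le_mul_of_nonneg_left h1 (by positivity))
  have hEℓ : 2 * ℓ ≤ E := by
    rw [hEd, le_div_iff₀ (by positivity)]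
    have h1 : 2 * ℓ * (ℓ * m) ≤ 2 * ℓ ^ 3 := by
      have : ℓ * (ℓ * m) ≤ ℓ * (ℓ * ℓ) := by gcongr
      nlinarith
    have h2 : 2 * ℓ ^ 3 = 1 / (64 * C) * (128 * C * ℓ ^ 3) := by field_simp; norm_num
    have h3 : 1 / (64 * C) * (128 * C * ℓ ^ 3) ≤ 1 / (64 * C) * L :=
      mul_le_mul_of_nonneg_left (by rw [hLe]; exact hEx) (by positivity)
    linarith
  have hE4 : E ≤ L / 4 := by
    rw [hEd, div_le_iff₀ (by positivity)]
    have h1 : 1 / (64 * C) ≤ 1 := by
      rw [div_le_one (by positivity)]; linarith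
    have h2 : 1 / (64 * C) * L ≤ 1 * L := mul_le_mul_of_nonneg_right h1 hL0.le
    have h3 : (100 : ℝ) * 4 ≤ ℓ * m := by gcongr
    nlinarith
  have hA : (L + 1) * (3 * x * Real.exp (-(L / (16 * C * ℓ * Real.log (8 * ℓ))))) ≤
      x * Real.exp (-E) / 2 := by
    have h1 : Real.exp (-(L / (16 * C * ℓ * Real.log (8 * ℓ)))) ≤
        Real.exp (-E) * Real.exp (-(2 * ℓ)) := by
      rw [← Real.exp_add]
      apply Real.exp_le_exp.2
      linarith
    have h2 : Real.exp (-(2 * ℓ)) = (L * L)⁻¹ := by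
      rw [Real.exp_neg, hLe, ← Real.exp_add]; congr 2; ring
    have h3 : (L + 1) * 3 * (L * L)⁻¹ ≤ 1 / 2 := by
      rw [← div_eq_mul_inv, div_le_div_iff₀ (by positivity) (by norm_num)]
      nlinarith
    have h4 := Real.exp_pos (-E)
    calc (L + 1) * (3 * x * Real.exp (-(L / (16 * C * ℓ * Real.log (8 * ℓ)))))
        ≤ (L + 1) * (3 * x * (Real.exp (-E) * Real.exp (-(2 * ℓ)))) := by gcongr
      _ = x * Real.exp (-E) * ((L + 1) * 3 * (L * L)⁻¹) := by rw [h2]; ring
      _ ≤ x * Real.exp (-E) * (1 / 2) := mul_le_mul_of_nonneg_left h3 (by positivity)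
      _ = _ := by ring
  have hB : (L + 1) * Real.exp (L / 8) ≤ x * Real.exp (-E) / 2 := by
    have h1 : Real.exp (L * (3 / 4)) ≤ x * Real.exp (-E) := by
      rw [hxe, ← Real.exp_add]
      apply Real.exp_le_exp.2
      linarith
    have h2 : 2 * (L + 1) ≤ Real.exp (L * (5 / 8)) := by
      have h3 := Real.quadratic_le_exp_of_nonneg (by positivity : (0 : ℝ) ≤ L * (5 / 8))
      nlinarith
    have h3 : Real.exp (L * (3 / 4)) = Real.exp (L * (5 / 8)) * Real.exp (L / 8) := by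
      rw [← Real.exp_add]; congr 1; ring
    have h4 := Real.exp_pos (L / 8)
    nlinarith
  calc (L + 1) * (3 * x * Real.exp (-(L / (16 * C * ℓ * Real.log (8 * ℓ)))) + Real.exp (L / 8))
      = (L + 1) * (3 * x * Real.exp (-(L / (16 * C * ℓ * Real.log (8 * ℓ))))) +
        (L + 1) * Real.exp (L / 8) := by ring
    _ ≤ x * Real.exp (-E) / 2 + x * Real.exp (-E) / 2 := add_le_add hA hB
    _ = x * Real.exp (-E) := by ring

end RD69
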