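import Mathlib

/-!
ROW LD.  The choice of `δ` for one scale.
PROOF.  `δ = max (1/ℓ) (sqrt (i/Y))`.  `δ ≤ 1` as `i ≤ Y`, `1 ≤ ℓ`.  `i ≤ Y δ^2` as `sqrt (i/Y) ≤ δ`.  With `Y = L/(3 C)`:
`i C log(8/δ) ≤ (L/3) δ * (δ log (8/δ)) ≤ L δ` because `δ log (8/δ) ≤ 3` for `0 < δ ≤ 1`
(`log (8/δ) = log 8 + log (1/δ)`, `log 8 ≤ 2.1`, `δ log (1/δ) ≤ 1/e ≤ 0.4`, or `log u ≤ u - 1`).
Last: `δ ≥ 1/ℓ`, hence `log (8/δ) ≤ log (8 ℓ)` and `δ / log(8/δ) ≥ 1/(ℓ log (8ℓ))` (all logs are `≥ log 8 > 0`).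
-/

namespace RD69

/-- `δ log (8/δ) ≤ 3` -/
theorem LD_three (δ : ℝ) (hδ : 0 < δ) (hδ1 : δ ≤ 1) : δ * Real.log (8 / δ) ≤ 3 := by
  -- log (8/δ) = log 4 + log (2/δ) ≤ 2 log 2 + 2/δ - 1
  have h1 : Real.log (8 / δ) = 3 * Real.log 2 + Real.log (1 / δ) := by
    have h2 : 8 / δ = (2 : ℝ) ^ 3 * (1 / δ) := by ring
    rw [h2, Real.log_mul (by norm_num) (by positivity), Real.log_pow]
    norm_num
  have h3 : Real.log (1 / δ) ≤ 1 / δ - 1 := Real.log_le_sub_one_of_pos (by positivity)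
  have h4 := Real.log_two_lt_d9
  have h5 : δ * Real.log (8 / δ) ≤ δ * (2.1 + (1 / δ - 1)) := by
    apply mul_le_mul_of_nonneg_left _ hδ.le
    rw [h1]; linarith
  have h6 : δ * (2.1 + (1 / δ - 1)) = 1 + 1.1 * δ := by
    field_simp
    ring
  rw [h6] at h5
  linarith

theorem delta_choice (C L ℓ : ℝ) (hC : 1 ≤ C) (hL : 0 < L) (hℓ : 1 ≤ ℓ) (i : ℝ) (hi : 0 < i)
    (hiY : i ≤ L / (3 * C)) :
    let δ := max (1 / ℓ) (Real.sqrt (i / (L / (3 * C))))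
    1 / ℓ ≤ δ ∧ δ ≤ 1 ∧ i * (C * Real.log (8 / δ)) ≤ L * δ ∧
      L / (16 * C * ℓ * Real.log (8 * ℓ)) ≤ L * δ / (16 * C * Real.log (8 / δ)) ∧
      δ ≤ 1 / ℓ + Real.sqrt (i / (L / (3 * C))) := by
  intro δ
  have hC0 : 0 < C := by linarith
  have hℓ0 : 0 < ℓ := by linarith
  set Y : ℝ := L / (3 * C) with hY
  have hY0 : 0 < Y := by positivity
  have h1 : 1 / ℓ ≤ δ := le_max_left _ _
  have h2 : Real.sqrt (i / Y) ≤ δ := le_max_right _ _
  have hδ0 : 0 < δ := lt_of_lt_of_le (by positivity) h1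
  have hδ1 : δ ≤ 1 := by
    apply max_le
    · rw [div_le_one hℓ0]; exact hℓ
    · rw [Real.sqrt_le_left one_pos.le, one_pow, div_le_one hY0]
      exact hiY
  have hiδ : i ≤ Y * δ ^ 2 := by
    have h3 : i / Y ≤ δ ^ 2 := by
      rw [← Real.sqrt_le_left hδ0.le]
      exact h2
    rw [div_le_iff₀ hY0] at h3
    linarith
  have hlog8 : 0 < Real.log (8 / δ) := by
    apply Real.log_pos
    rw [lt_div_iff₀ hδ0]
    linarith
  refine ⟨h1, hδ1, ?_, ?_, ?_⟩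
  · have h3 := LD_three δ hδ0 hδ1
    calc i * (C * Real.log (8 / δ)) ≤ Y * δ ^ 2 * (C * Real.log (8 / δ)) :=
          mul_le_mul_of_nonneg_right hiδ (by positivity)
      _ = L / 3 * δ * (δ * Real.log (8 / δ)) := by
          rw [hY]
          field_simp
      _ ≤ L / 3 * δ * 3 := mul_le_mul_of_nonneg_left h3 (by positivity)
      _ = L * δ := by ring
  · have h3 : Real.log (8 / δ) ≤ Real.log (8 * ℓ) := by
      apply Real.log_le_log (by positivity)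
      rw [div_le_iff₀ hδ0]
      rw [div_le_iff₀ hℓ0] at h1
      nlinarith
    have h4 : 0 < Real.log (8 * ℓ) := lt_of_lt_of_le hlog8 h3
    rw [div_le_div_iff₀ (by positivity) (by positivity)]
    have h5 : 1 ≤ δ * ℓ := by
      rwa [div_le_iff₀ hℓ0] at h1
    calc L * (16 * C * Real.log (8 / δ)) ≤ L * (16 * C * Real.log (8 * ℓ)) * 1 := by
          rw [mul_one]
          gcongr
      _ ≤ L * (16 * C * Real.log (8 * ℓ)) * (δ * ℓ) := by gcongr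
      _ = L * δ * (16 * C * ℓ * Real.log (8 * ℓ)) := by ring
  · apply max_le
    · have := Real.sqrt_nonneg (i / Y)
      linarith
    · have h3 : 0 < 1 / ℓ := by positivity
      show Real.sqrt (i / Y) ≤ 1 / ℓ + Real.sqrt (i / Y)
      linarith

end RD69
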