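import Mathlib

/-!
ROW LP.  Pointwise sum over the long scales.
PROOF.  Split `Ico i0 N` at `i1 + 1`.  For `i ≤ i1`: `∑ 2400/(ℓ i) ≤ 2400 (1 + log i1)/ℓ ≤ 2400 (1 + log Y)/ℓ ≤ 4800`
(`i1 ≤ Y`, `1, log Y ≤ ℓ`; harmonic sums: `RD.harm`, `RD.harm0` in LibRD13/FinC.lean or directly), and
`sqrt(i/Y)/i = 1/sqrt(i Y)`, `∑_{i=1}^{i1} 1/sqrt i ≤ 2 sqrt i1 ≤ 2 sqrt Y`: `≤ 4800`.
For `i1 < i < N`: `∑ CB/(i+1) ≤ CB log (N/(i1+1)) ≤ CB log B` (`i1 + 1 > Y`, `N ≤ B Y`), and `0` if `N ≤ i1 + 1`.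
-/

open Finset

namespace RD69

theorem LP_harm (a b : ℕ) (ha : 1 ≤ a) (hab : a ≤ b) :
    ∑ i ∈ Ico a b, (1 : ℝ) / (i + 1) ≤ Real.log (b / a) := by
  induction b, hab using Nat.le_induction with
  | base =>
    have : (a : ℝ) ≠ 0 := by positivity
    simp [div_self this]
  | succ b hb ih =>
    have ha0 : (0 : ℝ) < a := by exact_mod_cast ha
    have hb0 : (0 : ℝ) < b := by
      have : 0 < b := by omega
      exact_mod_cast this
    rw [sum_Ico_succ_top hb]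
    have h1 : (1 : ℝ) / (b + 1) ≤ Real.log ((b + 1) / b) := by
      have h := Real.one_sub_inv_le_log_of_pos (by positivity : 0 < ((b : ℝ) + 1) / b)
      have h2 : 1 - (((b : ℝ) + 1) / b)⁻¹ = 1 / (b + 1) := by
        field_simp
        ring
      linarith
    have h2 : Real.log ((((b + 1 : ℕ) : ℝ)) / a) = Real.log (b / a) + Real.log ((b + 1) / b) := by
      rw [← Real.log_mul (by positivity) (by positivity)]
      congr 1
      push_cast
      field_simp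
    rw [h2]
    linarith

/-- `∑_{1 ≤ i ≤ m} 1/i ≤ 1 + log m` -/
theorem LP_harm1 (m : ℕ) (hm : 1 ≤ m) : ∑ i ∈ Ico 1 (m + 1), (1 : ℝ) / i ≤ 1 + Real.log m := by
  have h1 : ∑ i ∈ Ico 1 (m + 1), (1 : ℝ) / i = 1 + ∑ i ∈ Ico 1 m, (1 : ℝ) / (i + 1) := by
    rw [sum_eq_sum_Ico_succ_bot (by omega)]
    have h2 : ∑ k ∈ Ico (1 + 1) (m + 1), (1 : ℝ) / k = ∑ i ∈ Ico 1 m, (1 : ℝ) / (i + 1) := by
      rw [← sum_Ico_add' (fun k : ℕ => (1 : ℝ) / k) 1 m 1]
      refine sum_congr rfl fun i _ => ?_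
      push_cast
      rfl
    rw [h2]; simp
  rw [h1]
  have h2 := LP_harm 1 m le_rfl hm
  simp only [Nat.cast_one, div_one] at h2
  linarith

/-- `∑_{1 ≤ i ≤ m} 1/sqrt i ≤ 2 sqrt m` -/
theorem LP_sqrt (m : ℕ) : ∑ i ∈ Ico 1 (m + 1), 1 / Real.sqrt i ≤ 2 * Real.sqrt m := by
  induction m with
  | zero => simp
  | succ m ih =>
    rw [sum_Ico_succ_top (by omega)]
    have h0 : (0 : ℝ) ≤ m := Nat.cast_nonneg m
    have h1 : 1 / Real.sqrt ((m + 1 : ℕ) : ℝ) ≤
        2 * Real.sqrt ((m + 1 : ℕ) : ℝ) - 2 * Real.sqrt m := by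
      push_cast
      have hs : 0 < Real.sqrt ((m : ℝ) + 1) := Real.sqrt_pos.2 (by linarith)
      rw [div_le_iff₀ hs]
      have h2 : Real.sqrt ((m : ℝ) + 1) * Real.sqrt ((m : ℝ) + 1) = m + 1 :=
        Real.mul_self_sqrt (by linarith)
      have h3 : Real.sqrt (m : ℝ) * Real.sqrt (m : ℝ) = m := Real.mul_self_sqrt h0
      have h4 := sq_nonneg (Real.sqrt ((m : ℝ) + 1) - Real.sqrt m)
      nlinarith
    linarith

theorem long_point (CB ℓ Y B : ℝ) (hCB : 0 < CB) (hℓ : 1 ≤ ℓ) (hY : 1 ≤ Y)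
    (hYℓ : Real.log Y ≤ ℓ) (hB : 1 ≤ B) (a : ℕ → ℝ) (N i0 i1 : ℕ) (hi0 : 1 ≤ i0)
    (hi1 : i1 = ⌊Y⌋₊) (hN : (N : ℝ) ≤ B * Y) (hBT : ∀ i : ℕ, a i ≤ CB / (i + 1))
    (hmid : ∀ i : ℕ, i0 ≤ i → i ≤ i1 → a i ≤ 2400 * (1 / ℓ + Real.sqrt (i / Y)) / i) :
    ∑ i ∈ Ico i0 N, a i ≤ 9600 + CB * Real.log B := by
  have hY0 : 0 < Y := by linarith
  have hi1Y : (i1 : ℝ) ≤ Y := by rw [hi1]; exact Nat.floor_le hY0.le
  have hi1Y' : Y < i1 + 1 := by rw [hi1]; exact Nat.lt_floor_add_one Y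
  have hi11 : 1 ≤ i1 := by rw [hi1]; exact Nat.le_floor (by simpa using hY)
  have hℓ0 : 0 < ℓ := by linarith
  have hsY : 0 < Real.sqrt Y := Real.sqrt_pos.2 hY0
  set P : ℕ → ℝ := fun i => if i ≤ i1 then 2400 * (1 / ℓ + Real.sqrt (i / Y)) / i else 0 with hP
  set Q : ℕ → ℝ := fun i => if i1 < i then CB / ((i : ℝ) + 1) else 0 with hQ
  have hP0 : ∀ i, 0 ≤ P i := by
    intro i; rw [hP]; simp only; split_ifs <;> positivity
  have hQ0 : ∀ i, 0 ≤ Q i := by
    intro i; rw [hQ]; simp only; split_ifs <;> positivity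
  have h1 : ∀ i ∈ Ico i0 N, a i ≤ P i + Q i := by
    intro i hi
    rw [mem_Ico] at hi
    by_cases h : i ≤ i1
    · have h2 := hmid i hi.1 h
      have h3 : P i = 2400 * (1 / ℓ + Real.sqrt (i / Y)) / i := by rw [hP]; simp only; rw [if_pos h]
      have := hQ0 i
      linarith
    · have h2 := hBT i
      have h3 : Q i = CB / ((i : ℝ) + 1) := by rw [hQ]; simp only; rw [if_pos (by omega)]
      have := hP0 i
      linarith
  have hsP : ∑ i ∈ Ico i0 N, P i ≤ 9600 := by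
    have h2 : ∑ i ∈ Ico i0 N, P i ≤ ∑ i ∈ Ico 1 (i1 + 1),
        2400 * (1 / ℓ + Real.sqrt (i / Y)) / i := by
      have h3 : ∑ i ∈ Ico i0 N, P i =
          ∑ i ∈ (Ico i0 N).filter (fun i => i ≤ i1), 2400 * (1 / ℓ + Real.sqrt (i / Y)) / i := by
        rw [sum_filter]
      rw [h3]
      apply sum_le_sum_of_subset_of_nonneg
      · intro i hi
        rw [mem_filter, mem_Ico] at hi
        rw [mem_Ico]
        omega
      · intro i _ _
        positivity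
    have h3 : ∀ i ∈ Ico 1 (i1 + 1), 2400 * (1 / ℓ + Real.sqrt (i / Y)) / i =
        2400 / ℓ * (1 / (i : ℝ)) + 2400 / Real.sqrt Y * (1 / Real.sqrt i) := by
      intro i hi
      rw [mem_Ico] at hi
      have hi0 : (0 : ℝ) < i := by exact_mod_cast hi.1
      have hsi : 0 < Real.sqrt i := Real.sqrt_pos.2 hi0
      have h4 : Real.sqrt (i / Y) = Real.sqrt i / Real.sqrt Y := Real.sqrt_div hi0.le Y
      have h5 : Real.sqrt i * Real.sqrt i = i := Real.mul_self_sqrt hi0.le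
      rw [h4]
      have h6 : Real.sqrt i / i = 1 / Real.sqrt i := by
        rw [div_eq_div_iff hi0.ne' hsi.ne', h5, one_mul]
      calc 2400 * (1 / ℓ + Real.sqrt i / Real.sqrt Y) / i
          = 2400 / ℓ * (1 / (i : ℝ)) + 2400 / Real.sqrt Y * (Real.sqrt i / i) := by
            field_simp
        _ = _ := by rw [h6]
    rw [sum_congr rfl h3, sum_add_distrib, ← mul_sum, ← mul_sum] at h2
    have h4 : 2400 / ℓ * ∑ i ∈ Ico 1 (i1 + 1), (1 : ℝ) / i ≤ 4800 := by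
      have h5 := LP_harm1 i1 hi11
      have h6 : Real.log i1 ≤ ℓ := by
        refine (Real.log_le_log ?_ hi1Y).trans hYℓ
        exact_mod_cast hi11
      have h7 : ∑ i ∈ Ico 1 (i1 + 1), (1 : ℝ) / i ≤ 2 * ℓ := by linarith
      calc 2400 / ℓ * ∑ i ∈ Ico 1 (i1 + 1), (1 : ℝ) / i ≤ 2400 / ℓ * (2 * ℓ) :=
            mul_le_mul_of_nonneg_left h7 (by positivity)
        _ = 4800 := by field_simp; norm_num
    have h5 : 2400 / Real.sqrt Y * ∑ i ∈ Ico 1 (i1 + 1), 1 / Real.sqrt i ≤ 4800 := by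
      have h6 := LP_sqrt i1
      have h7 : Real.sqrt i1 ≤ Real.sqrt Y := Real.sqrt_le_sqrt hi1Y
      calc 2400 / Real.sqrt Y * ∑ i ∈ Ico 1 (i1 + 1), 1 / Real.sqrt i
          ≤ 2400 / Real.sqrt Y * (2 * Real.sqrt Y) :=
            mul_le_mul_of_nonneg_left (by linarith) (by positivity)
        _ = 4800 := by field_simp; norm_num
    linarith
  have hsQ : ∑ i ∈ Ico i0 N, Q i ≤ CB * Real.log B := by
    have hlB : 0 ≤ Real.log B := Real.log_nonneg hB
    have h2 : ∑ i ∈ Ico i0 N, Q i ≤ ∑ i ∈ Ico (i1 + 1) N, CB / ((i : ℝ) + 1) := by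
      have h3 : ∑ i ∈ Ico i0 N, Q i =
          ∑ i ∈ (Ico i0 N).filter (fun i => i1 < i), CB / ((i : ℝ) + 1) := by
        rw [sum_filter]
      rw [h3]
      apply sum_le_sum_of_subset_of_nonneg
      · intro i hi
        rw [mem_filter, mem_Ico] at hi
        rw [mem_Ico]
        omega
      · intro i _ _
        positivity
    rcases Nat.lt_or_ge N (i1 + 1) with h3 | h3
    · have h4 : Ico (i1 + 1) N = ∅ := Ico_eq_empty (by omega)
      rw [h4, sum_empty] at h2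
      have : 0 ≤ CB * Real.log B := by positivity
      linarith
    · have h4 := LP_harm (i1 + 1) N (by omega) h3
      have h5 : ∑ i ∈ Ico (i1 + 1) N, CB / ((i : ℝ) + 1) =
          CB * ∑ i ∈ Ico (i1 + 1) N, (1 : ℝ) / (i + 1) := by
        rw [mul_sum]
        exact sum_congr rfl fun i _ => by ring
      rw [h5] at h2
      have h6 : Real.log ((N : ℝ) / ((i1 + 1 : ℕ) : ℝ)) ≤ Real.log B := by
        have hi10 : (0 : ℝ) < ((i1 + 1 : ℕ) : ℝ) := by positivity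
        have hN0 : (0 : ℝ) < N := by
          have : 0 < N := by omega
          exact_mod_cast this
        apply Real.log_le_log (by positivity)
        rw [div_le_iff₀ hi10]
        refine hN.trans ?_
        push_cast
        exact mul_le_mul_of_nonneg_left hi1Y'.le (by linarith)
      refine h2.trans (mul_le_mul_of_nonneg_left (h4.trans h6) hCB.le)
  have h2 := sum_le_sum h1
  rw [sum_add_distrib] at h2
  linarith

end RD69
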