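import Pool.Agent.LibRD13.FinC
import Pool.Agent.LibRD69B.LP
import Pool.Agent.LibRD69B.LD
import Pool.Agent.LibRD69B.LA

/-!
ROW LS.  The long scales.  (Compare the proof of `RD.main` in LibRD13/FinC.lean.)
PROOF.  `C1` from `RD.scale`, `CB` from `RD.NB_BT`, `L = log x`, `ℓ = log L`, `Y = L/(3 C1)`, `i0 = ⌈6 ℓ⌉₊`, `i1 = ⌊Y⌋₊`.
For `i0 ≤ i ≤ i1` apply `RD.scale` with `δ = delta_choice`: outside `S i` (`#(S i) ≤ 3 x exp(-L/(16 C1 ℓ log (8 ℓ))) + exp (L/8)`)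
one has `NB/2^i ≤ 2400 δ/i ≤ 2400 (1/ℓ + sqrt (i/Y))/i`.  `long_point` (`N = Nat.log 2 n + 1 ≤ 2 L = 6 C1 Y`, `B = 6 C1`,
`log Y ≤ ℓ`) gives the bound `C = 9600 + CB log (6 C1)` (+1 if needed).  Number of scales `≤ i1 + 1 ≤ L + 1`; `long_asymp`;
`c = 1/(64 C1)`.
-/

open Finset Filter

namespace RD69

theorem large_tail : ∃ C c : ℝ, 0 < C ∧ 0 < c ∧ ∀ᶠ x : ℕ in atTop,
    (#{n ∈ Icc 1 x | ⌊Real.sqrt x⌋₊ < n ∧
        C < ∑ k ∈ Ico ⌈6 * Real.log (Real.log x)⌉₊ (Nat.log 2 n + 1),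
          (RD.NB (2 ^ k) (2 ^ k) n : ℝ) / 2 ^ k} : ℝ) ≤
      x * Real.exp (-(c * Real.log x /
        (Real.log (Real.log x) * Real.log (Real.log (Real.log x))))) := by
  classical
  obtain ⟨C1, hC1, hS⟩ := RD.scale
  obtain ⟨CB, hCB, hBT⟩ := RD.NB_BT
  have hlogC : 0 ≤ Real.log (6 * C1) := Real.log_nonneg (by linarith)
  refine ⟨9600 + CB * Real.log (6 * C1), 1 / (64 * C1), by positivity, by positivity, ?_⟩
  have hlog : Tendsto (fun x : ℕ => Real.log x) atTop atTop :=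
    Real.tendsto_log_atTop.comp tendsto_natCast_atTop_atTop
  have hloglog : Tendsto (fun x : ℕ => Real.log (Real.log x)) atTop atTop :=
    Real.tendsto_log_atTop.comp hlog
  filter_upwards [hS, long_asymp C1 hC1, hloglog.eventually (eventually_ge_atTop (100 : ℝ)),
    hlog.eventually (eventually_ge_atTop (100 : ℝ)),
    hlog.eventually (eventually_ge_atTop (3 * C1)), eventually_ge_atTop 1] with
    x hSx hasy hx2 hx3 hx5 hx4
  set L : ℝ := Real.log x with hL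
  set ℓ : ℝ := Real.log L with hℓ
  have hℓ0 : 0 < ℓ := by linarith
  have hL0 : 0 < L := by linarith
  have hx0 : (0 : ℝ) < x := by exact_mod_cast hx4
  set Y : ℝ := L / (3 * C1) with hY
  have hC10 : 0 < C1 := by linarith
  have hY1 : 1 ≤ Y := by
    rw [hY, le_div_iff₀ (by positivity)]; linarith
  have hY0 : 0 < Y := by linarith
  have hYL : Y ≤ L := by
    rw [hY, div_le_iff₀ (by positivity)]
    nlinarith
  set i0 : ℕ := ⌈6 * ℓ⌉₊ with hi0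
  set i1 : ℕ := ⌊Y⌋₊ with hi1
  have hi0l : 6 * ℓ ≤ i0 := Nat.le_ceil _
  have hi01 : 1 ≤ i0 := by
    have h1 : (1 : ℝ) ≤ i0 := by linarith
    exact_mod_cast h1
  have hi1l : (i1 : ℝ) ≤ Y := Nat.floor_le hY0.le
  set δ : ℕ → ℝ := fun i => max (1 / ℓ) (Real.sqrt ((i : ℝ) / (L / (3 * C1)))) with hδ
  set S : ℕ → Finset ℕ := fun i => {n ∈ Ico (⌊Real.sqrt x⌋₊ + 1) (x + 1) |
        2400 * δ i * 2 ^ i / i < (RD.NB (2 ^ i) (2 ^ i) n : ℝ)} with hSd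
  have hch : ∀ i ∈ Icc i0 i1, 1 / ℓ ≤ δ i ∧ δ i ≤ 1 ∧
      (i : ℝ) * (C1 * Real.log (8 / δ i)) ≤ L * δ i ∧
      L / (16 * C1 * ℓ * Real.log (8 * ℓ)) ≤ L * δ i / (16 * C1 * Real.log (8 / δ i)) ∧
      δ i ≤ 1 / ℓ + Real.sqrt (i / (L / (3 * C1))) := by
    intro i hi
    rw [mem_Icc] at hi
    have h1 : (0 : ℝ) < i := by
      have : 0 < i := by omega
      exact_mod_cast this
    have h2 : (i : ℝ) ≤ Y := by
      refine le_trans ?_ hi1l
      exact_mod_cast hi.2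
    exact delta_choice C1 L ℓ hC1 hL0 (by linarith) i h1 h2
  have hSi : ∀ i ∈ Icc i0 i1, (#(S i) : ℝ) ≤
      3 * x * Real.exp (-(L / (16 * C1 * ℓ * Real.log (8 * ℓ)))) + Real.exp (L / 8) := by
    intro i hi
    obtain ⟨h1, h2, h3, h4, -⟩ := hch i hi
    rw [mem_Icc] at hi
    have h5 : (i0 : ℝ) ≤ i := by exact_mod_cast hi.1
    refine (hSx (δ i) i h1 h2 (by linarith) h3).trans ?_
    have h6 : Real.exp (-(L * δ i / (16 * C1 * Real.log (8 / δ i)))) ≤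
        Real.exp (-(L / (16 * C1 * ℓ * Real.log (8 * ℓ)))) := by
      apply Real.exp_le_exp.2
      linarith
    have h7 := mul_le_mul_of_nonneg_left h6 (by positivity : (0 : ℝ) ≤ 3 * x)
    linarith
  have hsub : {n ∈ Icc 1 x | ⌊Real.sqrt x⌋₊ < n ∧
        9600 + CB * Real.log (6 * C1) < ∑ k ∈ Ico i0 (Nat.log 2 n + 1),
          (RD.NB (2 ^ k) (2 ^ k) n : ℝ) / 2 ^ k} ⊆ (Icc i0 i1).biUnion S := by
    intro n hn
    rw [mem_filter, mem_Icc] at hn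
    obtain ⟨⟨hn1, hnx⟩, hsq, hlt⟩ := hn
    by_contra hcon
    have hn0 : (0 : ℝ) < n := by exact_mod_cast hn1
    have hN2 : ((Nat.log 2 n + 1 : ℕ) : ℝ) ≤ 6 * C1 * Y := by
      have h1 : (2 : ℝ) ^ (Nat.log 2 n) ≤ n := by
        have := Nat.pow_log_le_self 2 (by omega : n ≠ 0)
        exact_mod_cast this
      have h2 : (Nat.log 2 n : ℝ) * Real.log 2 ≤ Real.log n := by
        rw [← Real.log_pow]
        exact Real.log_le_log (by positivity) h1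
      have h3 : Real.log n ≤ L := Real.log_le_log hn0 (by exact_mod_cast hnx)
      have h4 := Real.log_two_gt_d9
      have h5 : (0 : ℝ) ≤ (Nat.log 2 n : ℝ) := Nat.cast_nonneg _
      have h6 : 6 * C1 * Y = 2 * L := by
        rw [hY]; field_simp; norm_num
      rw [h6]
      push_cast
      nlinarith
    have hmid : ∀ i : ℕ, i0 ≤ i → i ≤ i1 →
        (RD.NB (2 ^ i) (2 ^ i) n : ℝ) / 2 ^ i ≤ 2400 * (1 / ℓ + Real.sqrt (i / Y)) / i := by
      intro i h1 h2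
      have h3 : n ∉ S i := fun h => hcon (mem_biUnion.2 ⟨i, mem_Icc.2 ⟨h1, h2⟩, h⟩)
      rw [hSd, mem_filter, not_and, not_lt] at h3
      have h4 := h3 (mem_Ico.2 ⟨by omega, by omega⟩)
      have hip : (0 : ℝ) < i := by
        have : 0 < i := by omega
        exact_mod_cast this
      obtain ⟨-, -, -, -, h5⟩ := hch i (mem_Icc.2 ⟨h1, h2⟩)
      calc (RD.NB (2 ^ i) (2 ^ i) n : ℝ) / 2 ^ i ≤ (2400 * δ i * 2 ^ i / i) / 2 ^ i :=
            div_le_div_of_nonneg_right h4 (by positivity)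
        _ = 2400 * δ i / i := by field_simp
        _ ≤ 2400 * (1 / ℓ + Real.sqrt (i / Y)) / i := by gcongr
    have hBTn : ∀ i : ℕ, (RD.NB (2 ^ i) (2 ^ i) n : ℝ) / 2 ^ i ≤ CB / (i + 1) := by
      intro i
      rw [div_le_iff₀ (by positivity)]
      calc (RD.NB (2 ^ i) (2 ^ i) n : ℝ) ≤ CB * 2 ^ i / (i + 1) := hBT i n
        _ = CB / (i + 1) * 2 ^ i := by ring
    have hlY : Real.log Y ≤ ℓ := Real.log_le_log hY0 hYL
    have hp := long_point CB ℓ Y (6 * C1) hCB (by linarith) hY1 hlY (by linarith)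
      (fun i => (RD.NB (2 ^ i) (2 ^ i) n : ℝ) / 2 ^ i) (Nat.log 2 n + 1) i0 i1 hi01 rfl
      hN2 hBTn hmid
    linarith
  have hcard := (card_le_card hsub).trans card_biUnion_le
  have hcard' : (#{n ∈ Icc 1 x | ⌊Real.sqrt x⌋₊ < n ∧
        9600 + CB * Real.log (6 * C1) < ∑ k ∈ Ico i0 (Nat.log 2 n + 1),
          (RD.NB (2 ^ k) (2 ^ k) n : ℝ) / 2 ^ k} : ℝ) ≤ ∑ i ∈ Icc i0 i1, (#(S i) : ℝ) := by
    exact_mod_cast hcard
  refine hcard'.trans ((sum_le_sum hSi).trans ?_)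
  rw [sum_const, nsmul_eq_mul, Nat.card_Icc]
  refine le_trans ?_ hasy
  have h1 : ((i1 + 1 - i0 : ℕ) : ℝ) ≤ L + 1 := by
    have h2 : ((i1 + 1 - i0 : ℕ) : ℝ) ≤ ((i1 + 1 : ℕ) : ℝ) := by exact_mod_cast Nat.sub_le _ _
    push_cast at h2
    linarith
  exact mul_le_mul_of_nonneg_right h1 (by positivity)

end RD69
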