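import Pool.Agent.LibRD69.PW

/-!
ROW SA.  Splitting of `rd n` at `U` and `2^i0`.
PROOF.  `rd_eq`; the distance `1` contributes `≤ 1`; `2 ≤ i < U`: `pw_range` (with lower limit `2`);
`U ≤ i < 2^i0` and `2^i0 ≤ i` are the two sums.  `K = 1 + κ |log log 2| + K₁`.
-/

open Finset

namespace RD69

theorem SA_pt (n U i0 i : ℕ) (hi : i ∈ dist n) :
    1 / (i : ℝ) ≤ (if i = 1 then 1 / (i : ℝ) else 0) +
      (if 2 ≤ i ∧ i < U then 1 / (i : ℝ) else 0) +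
      (if U ≤ i ∧ i < 2 ^ i0 then 1 / (i : ℝ) else 0) +
      (if 2 ^ i0 ≤ i then 1 / (i : ℝ) else 0) := by
  have h0 : (0 : ℝ) ≤ 1 / (i : ℝ) := by positivity
  have hi' : i < n ∧ 1 ≤ i ∧ (n - i).Prime := by
    simpa [dist] using hi
  have n1 : (0 : ℝ) ≤ (if i = 1 then 1 / (i : ℝ) else 0) := by
    split_ifs <;> [exact h0; exact le_rfl]
  have n2 : (0 : ℝ) ≤ (if 2 ≤ i ∧ i < U then 1 / (i : ℝ) else 0) := by
    split_ifs <;> [exact h0; exact le_rfl]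
  have n3 : (0 : ℝ) ≤ (if U ≤ i ∧ i < 2 ^ i0 then 1 / (i : ℝ) else 0) := by
    split_ifs <;> [exact h0; exact le_rfl]
  have n4 : (0 : ℝ) ≤ (if 2 ^ i0 ≤ i then 1 / (i : ℝ) else 0) := by
    split_ifs <;> [exact h0; exact le_rfl]
  by_cases c1 : i = 1
  · rw [if_pos c1]; linarith
  by_cases c4 : 2 ^ i0 ≤ i
  · rw [if_pos c4]; linarith
  by_cases c2 : i < U
  · rw [if_pos (show 2 ≤ i ∧ i < U from ⟨by omega, c2⟩)]; linarith
  · rw [if_pos (show U ≤ i ∧ i < 2 ^ i0 from ⟨by omega, by omega⟩)]; linarith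

theorem split_two (κ : ℝ) (hκ : 2 < κ) : ∃ K : ℝ, 0 < K ∧ ∀ n U i0 : ℕ, 2 ≤ U → U ≤ 2 ^ i0 →
    rd n ≤ κ * Real.log (Real.log U) + K +
      ∑ i ∈ (dist n).filter (fun i => U ≤ i ∧ i < 2 ^ i0), 1 / (i : ℝ) +
      ∑ i ∈ (dist n).filter (fun i => 2 ^ i0 ≤ i), 1 / (i : ℝ) := by
  obtain ⟨K, hK0, hK⟩ := pw_range κ hκ
  have hκ0 : 0 < κ := by linarith
  refine ⟨1 + κ * |Real.log (Real.log 2)| + K, by positivity, fun n U i0 hU _ => ?_⟩
  have h1 := hK n 2 U le_rfl hU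
  rw [rd_eq]
  have h2 := sum_le_sum (fun i hi => SA_pt n U i0 i hi)
  rw [sum_add_distrib, sum_add_distrib, sum_add_distrib, ← sum_filter, ← sum_filter,
    ← sum_filter, ← sum_filter] at h2
  have h3 : ∑ i ∈ (dist n).filter (fun i => i = 1), 1 / (i : ℝ) ≤ 1 := by
    have h4 : (dist n).filter (fun i => i = 1) ⊆ {1} := by
      intro i hi
      rw [mem_filter] at hi
      rw [mem_singleton]
      exact hi.2
    calc ∑ i ∈ (dist n).filter (fun i => i = 1), 1 / (i : ℝ)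
        ≤ ∑ i ∈ ({1} : Finset ℕ), 1 / (i : ℝ) :=
          sum_le_sum_of_subset_of_nonneg h4 (fun _ _ _ => by positivity)
      _ = 1 := by simp
  have h7 : - Real.log (Real.log (2 : ℝ)) ≤ |Real.log (Real.log 2)| := neg_le_abs _
  rw [Nat.cast_ofNat] at h1
  have e2 := mul_le_mul_of_nonneg_left h7 hκ0.le
  linarith

end RD69
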