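import Pool.Agent.LibRD69B.SD
import Pool.Agent.LibRD69B.LS
import Pool.Agent.LibRD69B.SA
import Pool.Agent.LibRD69B.CA

/-!
ROW FB.  Assembly.
-/

open Finset Filter

namespace RD69

theorem bounded_levels (κ : ℝ) (hκ : 2 < κ) : ∃ K c : ℝ, 0 < c ∧ ∀ᶠ x : ℕ in atTop, ∀ A : ℝ,
    1 ≤ A → A ≤ c * Real.log x /
      (Real.log (Real.log x) ^ 2 * Real.log (Real.log (Real.log x))) →
    (#{n ∈ Icc 1 x | κ * Real.log (Real.log (A + 2)) + K < rd n} : ℝ) ≤
      x * Real.exp (-(A * Real.log (Real.log x))) := by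
  classical
  obtain ⟨K1, hK1, hsplit⟩ := split_two κ hκ
  obtain ⟨C2, c2, hC2, hc2, hlarge⟩ := large_tail
  have hκ0 : 0 < κ := by linarith
  set c : ℝ := min (c2 / 2) 1 with hc
  have hc0 : 0 < c := lt_min (by positivity) one_pos
  have hc1 : c ≤ 1 := min_le_right _ _
  have hcc2 : c ≤ c2 / 2 := min_le_left _ _
  refine ⟨K1 + C2 + 2 + 5 * κ, c, hc0, ?_⟩
  have hlog : Tendsto (fun x : ℕ => Real.log x) atTop atTop :=
    Real.tendsto_log_atTop.comp tendsto_natCast_atTop_atTop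
  have hloglog : Tendsto (fun x : ℕ => Real.log (Real.log x)) atTop atTop :=
    Real.tendsto_log_atTop.comp hlog
  have hE : ∀ᶠ y : ℝ in atTop, 2 / (c2 / 2) * y ^ 2 ≤ Real.exp y := by
    have h1 : Tendsto (fun y : ℝ => Real.exp y / y ^ 2) atTop atTop :=
      Real.tendsto_exp_div_pow_atTop 2
    filter_upwards [h1.eventually (eventually_ge_atTop (2 / (c2 / 2))),
      eventually_gt_atTop (0 : ℝ)] with y hy hy2
    rwa [le_div_iff₀ (by positivity)] at hy
  filter_upwards [mid_small_r, hlarge, hloglog.eventually hE,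
    hloglog.eventually (eventually_ge_atTop (100 : ℝ)),
    hlog.eventually (eventually_ge_atTop (100 : ℝ)), eventually_ge_atTop 1] with
    x hmid hlx hEx hℓ100 hL100 hx1
  intro A hA1 hA2
  have hx0 : (0 : ℝ) < x := by exact_mod_cast hx1
  set L : ℝ := Real.log x with hL
  set ℓ : ℝ := Real.log L with hℓ
  set m : ℝ := Real.log ℓ with hm
  have hL0 : 0 < L := by linarith
  have hℓ0 : 0 < ℓ := by linarith
  have hLe : L = Real.exp ℓ := by rw [hℓ, Real.exp_log hL0]
  have hxe : (x : ℝ) = Real.exp L := by rw [hL, Real.exp_log hx0]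
  have hm1 : 4 ≤ m := by
    rw [hm, Real.le_log_iff_exp_le hℓ0]
    have h1 := Real.exp_one_lt_d9
    have h2 : Real.exp 4 = Real.exp 1 ^ 4 := by rw [← Real.exp_nat_mul]; norm_num
    have h3 : Real.exp 1 ^ 4 ≤ 2.72 ^ 4 :=
      pow_le_pow_left₀ (Real.exp_pos 1).le (by linarith) 4
    have h4 : (2.72 : ℝ) ^ 4 ≤ 100 := by norm_num
    linarith
  have hm0 : 0 < m := by linarith
  have hmℓ : m ≤ ℓ := by
    have := Real.log_le_sub_one_of_pos hℓ0
    linarith
  set i0 : ℕ := ⌈6 * ℓ⌉₊ with hi0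
  have hi0l : 6 * ℓ ≤ i0 := Nat.le_ceil _
  have hi0u : (i0 : ℝ) ≤ 7 * ℓ := by
    have := (Nat.ceil_lt_add_one (by positivity : 0 ≤ 6 * ℓ)).le
    linarith
  -- `Aℓ ≤ c L/(ℓ m)`
  have hAℓ : A * ℓ ≤ c * L / (ℓ * m) := by
    have h1 := mul_le_mul_of_nonneg_right hA2 hℓ0.le
    have h2 : c * L / (ℓ ^ 2 * m) * ℓ = c * L / (ℓ * m) := by
      field_simp
    linarith
  have hq : 2 ≤ c2 / 2 * (L / (ℓ * m)) := by
    have h1 : ℓ * m ≤ ℓ ^ 2 := by nlinarith
    have h2 : 2 / (c2 / 2) * (ℓ * m) ≤ L := by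
      rw [hLe]
      refine le_trans ?_ hEx
      exact mul_le_mul_of_nonneg_left h1 (by positivity)
    have h3 : 2 / (c2 / 2) ≤ L / (ℓ * m) := by
      rw [le_div_iff₀ (by positivity)]; exact h2
    calc (2 : ℝ) = c2 / 2 * (2 / (c2 / 2)) := by field_simp
      _ ≤ c2 / 2 * (L / (ℓ * m)) := mul_le_mul_of_nonneg_left h3 (by positivity)
  have hexp2 : (4 : ℝ) ≤ Real.exp 2 := by
    have h1 := Real.exp_one_gt_d9
    have h2 : Real.exp 2 = Real.exp 1 ^ 2 := by rw [← Real.exp_nat_mul]; norm_num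
    rw [h2]; nlinarith
  set W : ℝ := A * ℓ with hW
  -- three bounds
  have hb1 : Real.exp (-(c2 * L / (ℓ * m))) ≤ Real.exp (-W) / 4 := by
    have h1 : -(c2 * L / (ℓ * m)) ≤ -W + -2 := by
      have h2 : c * L / (ℓ * m) ≤ c2 / 2 * (L / (ℓ * m)) := by
        rw [mul_div_assoc]
        exact mul_le_mul_of_nonneg_right hcc2 (by positivity)
      have h3 : c2 * L / (ℓ * m) = c2 / 2 * (L / (ℓ * m)) + c2 / 2 * (L / (ℓ * m)) := by ring
      rw [h3]; linarith
    refine (Real.exp_le_exp.2 h1).trans ?_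
    rw [Real.exp_add, Real.exp_neg 2, div_eq_mul_inv]
    exact mul_le_mul_of_nonneg_left (inv_anti₀ (by norm_num) hexp2) (Real.exp_pos _).le
  have hb2 : ((⌊Real.sqrt x⌋₊ : ℕ) : ℝ) ≤ x * (Real.exp (-W) / 4) := by
    have h1 : ((⌊Real.sqrt x⌋₊ : ℕ) : ℝ) ≤ Real.exp (L / 2) := by
      refine (Nat.floor_le (Real.sqrt_nonneg _)).trans (le_of_eq ?_)
      rw [Real.sqrt_eq_rpow, Real.rpow_def_of_pos hx0]
      congr 1; ring
    have h2 : W ≤ L / 4 := by
      refine hAℓ.trans ?_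
      rw [div_le_iff₀ (by positivity)]
      have h3 : c * L ≤ 1 * L := mul_le_mul_of_nonneg_right hc1 hL0.le
      have h4 : (100 : ℝ) * 4 ≤ ℓ * m := by gcongr
      nlinarith
    have h3 : x * (Real.exp (-W) / 4) = Real.exp (L - W) / 4 := by
      rw [hxe, sub_eq_add_neg, Real.exp_add]; ring
    rw [h3]
    have h4 : Real.exp (L / 2 + 2) ≤ Real.exp (L - W) := by
      apply Real.exp_le_exp.2; linarith
    rw [Real.exp_add] at h4
    have h5 := Real.exp_pos (L / 2)
    have h6 := mul_le_mul_of_nonneg_left hexp2 h5.le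
    linarith
  set r : ℕ := ⌈A⌉₊ with hr
  have hrA : A ≤ r := Nat.le_ceil _
  have hrA1 : (r : ℝ) ≤ A + 1 := (Nat.ceil_lt_add_one (by linarith)).le
  have hr1 : 1 ≤ r := by
    have : (1 : ℝ) ≤ r := by linarith
    exact_mod_cast this
  have hr0 : (0 : ℝ) < r := by linarith
  have hb3 : Real.exp (-(2 * r * ℓ)) ≤ Real.exp (-W) / 4 := by
    have h1 : -(2 * r * ℓ) ≤ -W + -2 := by
      have h2 : A * ℓ ≤ r * ℓ := mul_le_mul_of_nonneg_right hrA hℓ0.le
      have h3 : (1 : ℝ) * ℓ ≤ r * ℓ := mul_le_mul_of_nonneg_right (by linarith) hℓ0.le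
      rw [hW]; linarith
    refine (Real.exp_le_exp.2 h1).trans ?_
    rw [Real.exp_add, Real.exp_neg 2, div_eq_mul_inv]
    exact mul_le_mul_of_nonneg_left (inv_anti₀ (by norm_num) hexp2) (Real.exp_pos _).le
  have hlogA : 0 < Real.log (A + 2) := Real.log_pos (by linarith)
  have h2pow : Real.exp (4 * ℓ) ≤ (2 : ℝ) ^ i0 := by
    rw [← Real.exp_log (by norm_num : (0 : ℝ) < 2), ← Real.exp_nat_mul]
    apply Real.exp_le_exp.2
    have h1 := Real.log_two_gt_d9
    have h2 : 6 * ℓ * 0.69 ≤ i0 * Real.log 2 := by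
      have h3 : (0.69 : ℝ) ≤ Real.log 2 := by linarith
      gcongr
    nlinarith
  set S1 : Finset ℕ := {n ∈ Icc 1 x | ⌊Real.sqrt x⌋₊ < n ∧
        C2 < ∑ k ∈ Ico i0 (Nat.log 2 n + 1),
          (RD.NB (2 ^ k) (2 ^ k) n : ℝ) / 2 ^ k} with hS1
  set S2 : Finset ℕ := {n ∈ Icc 1 x | ⌊Real.sqrt x⌋₊ < n ∧
        2 < ∑ i ∈ (dist n).filter (fun i => 4 * (16 * r) ≤ i ∧
          i < 2 ^ i0), 1 / (i : ℝ)} with hS2
  set T : Finset ℕ := {n ∈ Icc 1 x | κ * Real.log (Real.log (A + 2)) +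
    (K1 + C2 + 2 + 5 * κ) < rd n} with hT
  by_cases hcase : (r : ℝ) ≤ Real.exp (ℓ / 8)
  · -- small `r`
    have hS2c : (#S2 : ℝ) ≤ x * Real.exp (-(2 * r * ℓ)) := hmid r hr1 hcase
    have hsub : T ⊆ (Icc 1 ⌊Real.sqrt x⌋₊ ∪ S1) ∪ S2 := by
      intro n hn
      rw [hT, mem_filter, mem_Icc] at hn
      rw [mem_union, mem_union]
      by_contra hcon
      rw [not_or, not_or] at hcon
      obtain ⟨⟨h1, h2⟩, h3⟩ := hcon
      have hn1 : ⌊Real.sqrt x⌋₊ < n := by
        by_contra h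
        exact h1 (mem_Icc.2 ⟨hn.1.1, by omega⟩)
      rw [hS1, mem_filter, mem_Icc] at h2
      rw [hS2, mem_filter, mem_Icc] at h3
      have h2' : ∑ k ∈ Ico i0 (Nat.log 2 n + 1), (RD.NB (2 ^ k) (2 ^ k) n : ℝ) / 2 ^ k ≤ C2 := by
        by_contra h
        exact h2 ⟨hn.1, hn1, not_le.1 h⟩
      have h3' : ∑ i ∈ (dist n).filter (fun i => 4 * (16 * r) ≤ i ∧
          i < 2 ^ i0), 1 / (i : ℝ) ≤ 2 := by
        by_contra h
        exact h3 ⟨hn.1, hn1, not_le.1 h⟩
      have hU : 4 * (16 * r) ≤ 2 ^ i0 := by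
        have h4 : ((4 * (16 * r) : ℕ) : ℝ) ≤ (2 : ℝ) ^ i0 := by
          push_cast
          have h5 : (64 : ℝ) ≤ Real.exp ℓ := by
            have := Real.add_one_le_exp ℓ
            linarith
          have h6 : Real.exp (ℓ / 8) ≤ Real.exp ℓ := Real.exp_le_exp.2 (by linarith)
          have h7 : Real.exp (4 * ℓ) = Real.exp ℓ * Real.exp ℓ * Real.exp ℓ * Real.exp ℓ := by
            rw [← Real.exp_add, ← Real.exp_add, ← Real.exp_add]; congr 1; ring
          have h8 : Real.exp ℓ * Real.exp ℓ ≤ Real.exp (4 * ℓ) := by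
            rw [h7]
            have h9 : 1 ≤ Real.exp ℓ * Real.exp ℓ := by nlinarith
            have h10 : 0 < Real.exp ℓ * Real.exp ℓ := by positivity
            nlinarith
          have h11 : 64 * (r : ℝ) ≤ Real.exp ℓ * Real.exp ℓ :=
            mul_le_mul h5 (hcase.trans h6) hr0.le (Real.exp_pos _).le
          linarith
        exact_mod_cast h4
      have h6 := hsplit n (4 * (16 * r)) i0 (by omega) hU
      have h7 := dist_large n i0
      have h8 : Real.log (Real.log ((4 * (16 * r) : ℕ) : ℝ)) ≤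
          3 + Real.log (Real.log (A + 2)) := by
        have h9 : ((4 * (16 * r) : ℕ) : ℝ) ≤ (A + 2) ^ 8 := by
          push_cast
          have h10 : (3 : ℝ) ^ 7 ≤ (A + 2) ^ 7 := pow_le_pow_left₀ (by norm_num) (by linarith) 7
          have h11 : (A + 2) ^ 8 = (A + 2) ^ 7 * (A + 2) := by ring
          rw [h11]
          have h12 : (3 : ℝ) ^ 7 * (A + 2) ≤ (A + 2) ^ 7 * (A + 2) :=
            mul_le_mul_of_nonneg_right h10 (by linarith)
          norm_num at h12
          linarith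
        have h10 : (1 : ℝ) < ((4 * (16 * r) : ℕ) : ℝ) := by
          have : 1 < 4 * (16 * r) := by omega
          exact_mod_cast this
        have h11 := Real.log_le_log (by linarith) h9
        rw [Real.log_pow] at h11
        have h12 := Real.log_le_log (Real.log_pos h10) h11
        rw [Real.log_mul (by norm_num) hlogA.ne'] at h12
        have h13 : Real.log ((8 : ℕ) : ℝ) ≤ 3 := by
          rw [Real.log_le_iff_le_exp (by norm_num)]
          have h14 : Real.exp 3 = Real.exp 1 ^ 3 := by rw [← Real.exp_nat_mul]; norm_num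
          rw [h14]
          have h15 := Real.exp_one_gt_d9
          have h16 : (2 : ℝ) ^ 3 ≤ Real.exp 1 ^ 3 :=
            pow_le_pow_left₀ (by norm_num) (by linarith) 3
          norm_num at h16 ⊢
          linarith
        linarith
      have h9 := mul_le_mul_of_nonneg_left h8 hκ0.le
      have h10 := hn.2
      linarith
    have hcard := (card_le_card hsub).trans ((card_union_le _ _).trans
      (Nat.add_le_add_right (card_union_le _ _) _))
    rw [Nat.card_Icc, Nat.add_sub_cancel] at hcard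
    have hcard' : (#T : ℝ) ≤ ((⌊Real.sqrt x⌋₊ : ℕ) : ℝ) + #S1 + #S2 := by exact_mod_cast hcard
    have e1 := mul_le_mul_of_nonneg_left hb1 hx0.le
    have e3 := mul_le_mul_of_nonneg_left hb3 hx0.le
    have e4 : 0 < x * Real.exp (-W) := by positivity
    linarith
  · -- large `r`
    rw [not_le] at hcase
    have hsub : T ⊆ Icc 1 ⌊Real.sqrt x⌋₊ ∪ S1 := by
      intro n hn
      rw [hT, mem_filter, mem_Icc] at hn
      rw [mem_union]
      by_contra hcon
      rw [not_or] at hcon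
      obtain ⟨h1, h2⟩ := hcon
      have hn1 : ⌊Real.sqrt x⌋₊ < n := by
        by_contra h
        exact h1 (mem_Icc.2 ⟨hn.1.1, by omega⟩)
      rw [hS1, mem_filter, mem_Icc] at h2
      have h2' : ∑ k ∈ Ico i0 (Nat.log 2 n + 1), (RD.NB (2 ^ k) (2 ^ k) n : ℝ) / 2 ^ k ≤ C2 := by
        by_contra h
        exact h2 ⟨hn.1, hn1, not_le.1 h⟩
      have hi01 : 1 ≤ i0 := by
        have : (1 : ℝ) ≤ i0 := by linarith
        exact_mod_cast this
      have h2i : 2 ≤ 2 ^ i0 := by
        calc 2 = 2 ^ 1 := by norm_num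
          _ ≤ 2 ^ i0 := Nat.pow_le_pow_right (by norm_num) hi01
      have h6 := hsplit n (2 ^ i0) i0 h2i le_rfl
      have h7 := dist_large n i0
      have h8 : ∑ i ∈ (dist n).filter (fun i => 2 ^ i0 ≤ i ∧ i < 2 ^ i0), 1 / (i : ℝ) = 0 := by
        rw [filter_eq_empty_iff.2 (fun i _ h => by omega), sum_empty]
      rw [h8] at h6
      have h9 : Real.log (Real.log ((2 ^ i0 : ℕ) : ℝ)) ≤ 5 + Real.log (Real.log (A + 2)) := by
        push_cast
        rw [Real.log_pow]
        have h10 : (i0 : ℝ) * Real.log 2 ≤ 56 * Real.log (A + 2) := by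
          have h11 : ℓ / 8 ≤ Real.log (A + 2) := by
            rw [Real.le_log_iff_exp_le (by linarith)]
            linarith
          have h12 := Real.log_two_lt_d9
          have h13 : (i0 : ℝ) * Real.log 2 ≤ i0 * 1 :=
            mul_le_mul_of_nonneg_left (by linarith) (Nat.cast_nonneg _)
          linarith
        have h14 : 0 < (i0 : ℝ) * Real.log 2 := by
          have h15 : (1 : ℝ) ≤ i0 := by exact_mod_cast hi01
          have h16 := Real.log_two_gt_d9
          nlinarith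
        have h15 := Real.log_le_log h14 h10
        rw [Real.log_mul (by norm_num) hlogA.ne'] at h15
        have h16 : Real.log (56 : ℝ) ≤ 5 := by
          rw [Real.log_le_iff_le_exp (by norm_num)]
          have h17 : Real.exp 5 = Real.exp 1 ^ 5 := by rw [← Real.exp_nat_mul]; norm_num
          rw [h17]
          have h18 := Real.exp_one_gt_d9
          have h19 : (2.7 : ℝ) ^ 5 ≤ Real.exp 1 ^ 5 :=
            pow_le_pow_left₀ (by norm_num) (by linarith) 5
          norm_num at h19 ⊢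
          linarith
        linarith
      have h10 := mul_le_mul_of_nonneg_left h9 hκ0.le
      have h11 := hn.2
      linarith
    have hcard := (card_le_card hsub).trans (card_union_le _ _)
    rw [Nat.card_Icc, Nat.add_sub_cancel] at hcard
    have hcard' : (#T : ℝ) ≤ ((⌊Real.sqrt x⌋₊ : ℕ) : ℝ) + #S1 := by exact_mod_cast hcard
    have e1 := mul_le_mul_of_nonneg_left hb1 hx0.le
    have e4 : 0 < x * Real.exp (-W) := by positivity
    linarith

end RD69
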