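import Pool.Agent.LibRD69.PM

/-!
ROW FT.  Markov inequalities from the moments.
PROOF.  (1) `s ≤ #sv` gives `1 ≤ choose #sv s`; `fac_moment`, drop `s! ≥ 1` (the base is `≥ 0`; note `2 s ≤ y ≤ z` gives `log z > 0`).
(2) `T < #sv` gives `T^s ≤ #sv^s`; `pow_moment`; divide by `T^s`.
Use for `C, C₀` the maximum of the two pairs (`z^(C₀ s) ≤ x` for the larger `C₀` implies it for the smaller).
-/

open Finset

namespace RD69

theorem markov_tails : ∃ (C : ℝ) (C₀ : ℕ), 1 ≤ C ∧ 1 ≤ C₀ ∧ ∀ (s x y z a : ℕ), 1 ≤ s →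
    2 * s ≤ y → y ≤ z → z ^ (C₀ * s) ≤ x →
    (#{n ∈ Icc 1 x | s ≤ #(sv (2 * s) z (Ico a (a + y)) n)} : ℝ) ≤
      18 * x * (C * y * Real.log (2 * s) / Real.log z) ^ s ∧
    ∀ T : ℝ, 0 < T →
      (#{n ∈ Icc 1 x | T < #(sv (2 * s) z (Ico a (a + y)) n)} : ℝ) ≤
        18 * x * ((C * y * Real.log (2 * s) / Real.log z + 2 * s) / T) ^ s := by
  classical
  obtain ⟨C, C₀, hC, hC₀, hfm⟩ := fac_moment
  obtain ⟨D, D₀, hD, hD₀, hpm⟩ := pow_moment
  refine ⟨max C D, max C₀ D₀, le_max_of_le_left hC, le_max_of_le_left hC₀, ?_⟩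
  intro s x y z a hs h1 h2 h3
  have hz1 : 1 ≤ z := by omega
  have h3C : z ^ (C₀ * s) ≤ x :=
    (Nat.pow_le_pow_right hz1 (Nat.mul_le_mul_right s (le_max_left _ _))).trans h3
  have h3D : z ^ (D₀ * s) ≤ x :=
    (Nat.pow_le_pow_right hz1 (Nat.mul_le_mul_right s (le_max_right _ _))).trans h3
  have hs1 : (1 : ℝ) ≤ s := by exact_mod_cast hs
  have hz2 : (2 : ℝ) ≤ z := by
    have : 2 ≤ z := by omega
    exact_mod_cast this
  have hlz : 0 < Real.log z := Real.log_pos (by linarith)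
  have hls : 0 < Real.log (2 * s) := Real.log_pos (by linarith)
  have hx0 : (0 : ℝ) ≤ x := Nat.cast_nonneg x
  have hC0 : 0 ≤ C := by linarith
  have hD0 : 0 ≤ D := by linarith
  constructor
  · have hm := hfm s x y z a hs h1 h2 h3C
    have h4 : (#{n ∈ Icc 1 x | s ≤ #(sv (2 * s) z (Ico a (a + y)) n)} : ℝ) ≤
        ∑ n ∈ Icc 1 x, ((#(sv (2 * s) z (Ico a (a + y)) n)).choose s : ℝ) := by
      rw [card_eq_sum_ones, sum_filter]
      push_cast
      refine sum_le_sum fun n _ => ?_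
      split_ifs with h
      · have h5 : 1 ≤ (#(sv (2 * s) z (Ico a (a + y)) n)).choose s := Nat.choose_pos h
        exact_mod_cast h5
      · positivity
    refine h4.trans (hm.trans ?_)
    apply mul_le_mul_of_nonneg_left _ (by positivity)
    have h5 : (1 : ℝ) ≤ (s.factorial : ℝ) := by
      exact_mod_cast Nat.one_le_iff_ne_zero.2 (Nat.factorial_ne_zero s)
    have h6 : (C * y * Real.log (2 * s) / Real.log z) ^ s / (s.factorial : ℝ) ≤
        (C * y * Real.log (2 * s) / Real.log z) ^ s := div_le_self (by positivity) h5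
    refine h6.trans (pow_le_pow_left₀ (by positivity) ?_ s)
    gcongr
    exact le_max_left _ _
  · intro T hT
    have hm := hpm s x y z a hs h1 h2 h3D
    have h4 : (#{n ∈ Icc 1 x | T < #(sv (2 * s) z (Ico a (a + y)) n)} : ℝ) * T ^ s ≤
        ∑ n ∈ Icc 1 x, (#(sv (2 * s) z (Ico a (a + y)) n) : ℝ) ^ s := by
      rw [card_eq_sum_ones, sum_filter]
      push_cast
      rw [sum_mul]
      refine sum_le_sum fun n _ => ?_
      split_ifs with h
      · rw [one_mul]
        exact pow_le_pow_left₀ hT.le h.le s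
      · rw [zero_mul]
        positivity
    have h5 : (#{n ∈ Icc 1 x | T < #(sv (2 * s) z (Ico a (a + y)) n)} : ℝ) ≤
        18 * x * (D * y * Real.log (2 * s) / Real.log z + 2 * s) ^ s / T ^ s := by
      rw [le_div_iff₀ (by positivity)]
      exact h4.trans hm
    refine h5.trans ?_
    rw [mul_div_assoc, ← div_pow]
    apply mul_le_mul_of_nonneg_left _ (by positivity)
    refine pow_le_pow_left₀ (by positivity) ?_ s
    gcongr
    exact le_max_right _ _

end RD69
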