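import Pool.Agent.LibRD69.PW

/-!
ROW MP.  Pointwise bound for the middle distances.
PROOF.  Let `i ∈ dist n`, `4 s ≤ i < 2^i0`, `z < n - i`; `q = n - i` is a prime `> z`, so no prime in `[2s, z]` divides
`n - i`: `i ∈ sv (2s) z I n` as soon as `i ∈ I`.  If `i < 2^k0`: `i ∈ Ico 1 (1 + 2^k0)`; there are `< s` such `i`, each with
`1/i ≤ 1/(4 s)`: total `≤ 1/4`.  If `2^k0 ≤ i`: `k = Nat.log 2 i ∈ Ico k0 i0`, `1/i ≤ 1/2^k`, and for each `k` the number of
such `i` is `≤ 2^k/i0`: total `≤ (i0 - k0)/i0 ≤ 1`.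
-/

open Finset

namespace RD69

theorem MP_mem {s z n i : ℕ} {I : Finset ℕ} (hi : i ∈ dist n) (hz : z < n - i) (hI : i ∈ I) :
    i ∈ sv (2 * s) z I n := by
  unfold sv
  rw [mem_filter]
  refine ⟨hI, fun p hp hdvd => ?_⟩
  unfold pr at hp
  rw [mem_filter, mem_Icc] at hp
  unfold dist at hi
  rw [mem_filter, mem_range] at hi
  have h1 : (p : ℤ) ∣ ((n - i : ℕ) : ℤ) := by
    rw [Nat.cast_sub hi.1.le]
    exact hdvd
  have h2 : p ∣ n - i := by exact_mod_cast h1
  have h3 := (Nat.prime_dvd_prime_iff_eq hp.2 hi.2.2).1 h2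
  omega

theorem mid_point (s z k0 i0 n : ℕ) (hs : 1 ≤ s) (h1 : #(sv (2 * s) z (Ico 1 (1 + 2 ^ k0)) n) < s)
    (h2 : ∀ k ∈ Ico k0 i0, (#(sv (2 * s) z (Ico (2 ^ k) (2 ^ k + 2 ^ k)) n) : ℝ) ≤ 2 ^ k / i0) :
    ∑ i ∈ (dist n).filter (fun i => 4 * s ≤ i ∧ i < 2 ^ i0 ∧ z < n - i), 1 / (i : ℝ) ≤ 2 := by
  classical
  set E := (dist n).filter (fun i => 4 * s ≤ i ∧ i < 2 ^ i0 ∧ z < n - i) with hE
  have hs0 : (0 : ℝ) < s := by exact_mod_cast hs
  rw [← sum_filter_add_sum_filter_not E (fun i => i < 2 ^ k0)]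
  -- short part
  have hA : ∑ i ∈ E.filter (fun i => i < 2 ^ k0), 1 / (i : ℝ) ≤ 1 := by
    have h3 : ∀ i ∈ E.filter (fun i => i < 2 ^ k0), 1 / (i : ℝ) ≤ 1 / s := by
      intro i hi
      rw [mem_filter, hE, mem_filter] at hi
      have h4 : (s : ℝ) ≤ i := by
        have : s ≤ i := by omega
        exact_mod_cast this
      exact one_div_le_one_div_of_le hs0 h4
    have h4 : #(E.filter (fun i => i < 2 ^ k0)) ≤ s := by
      refine (card_le_card ?_).trans h1.le
      intro i hi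
      rw [mem_filter, hE, mem_filter] at hi
      exact MP_mem hi.1.1 hi.1.2.2.2 (mem_Ico.2 ⟨by omega, by omega⟩)
    refine (sum_le_card_nsmul _ _ _ h3).trans ?_
    rw [nsmul_eq_mul, mul_one_div, div_le_one hs0]
    exact_mod_cast h4
  -- long part
  have hB : ∑ i ∈ E.filter (fun i => ¬ i < 2 ^ k0), 1 / (i : ℝ) ≤ 1 := by
    have hmaps : ∀ i ∈ E.filter (fun i => ¬ i < 2 ^ k0), Nat.log 2 i ∈ Ico k0 i0 := by
      intro i hi
      rw [mem_filter, hE, mem_filter] at hi
      rw [mem_Ico]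
      have h3 : i ≠ 0 := by omega
      exact ⟨(Nat.le_log_iff_pow_le (by norm_num) h3).2 (by omega),
        (Nat.log_lt_iff_lt_pow (by norm_num) h3).2 hi.1.2.2.1⟩
    rw [← sum_fiberwise_of_maps_to hmaps]
    have h3 : ∀ k ∈ Ico k0 i0, ∑ i ∈ (E.filter (fun i => ¬ i < 2 ^ k0)).filter
        (fun i => Nat.log 2 i = k), 1 / (i : ℝ) ≤ 1 / i0 := by
      intro k hk
      have hi0 : (0 : ℝ) < i0 := by
        have : 0 < i0 := by rw [mem_Ico] at hk; omega
        exact_mod_cast this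
      have h4 : ∀ i ∈ (E.filter (fun i => ¬ i < 2 ^ k0)).filter
          (fun i => Nat.log 2 i = k), 1 / (i : ℝ) ≤ 1 / 2 ^ k := by
        intro i hi
        rw [mem_filter, mem_filter, hE, mem_filter] at hi
        have h5 : 2 ^ k ≤ i := by
          rw [← hi.2]
          exact Nat.pow_log_le_self 2 (by omega)
        have h6 : (2 : ℝ) ^ k ≤ i := by exact_mod_cast h5
        exact one_div_le_one_div_of_le (by positivity) h6
      have h5 : (#((E.filter (fun i => ¬ i < 2 ^ k0)).filter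
          (fun i => Nat.log 2 i = k)) : ℝ) ≤ 2 ^ k / i0 := by
        refine le_trans ?_ (h2 k hk)
        rw [Nat.cast_le]
        refine card_le_card ?_
        intro i hi
        rw [mem_filter, mem_filter, hE, mem_filter] at hi
        have h6 : 2 ^ k ≤ i := by
          rw [← hi.2]
          exact Nat.pow_log_le_self 2 (by omega)
        have h7 : i < 2 ^ (k + 1) := by
          rw [← hi.2]
          exact Nat.lt_pow_succ_log_self (by norm_num) i
        rw [pow_succ] at h7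
        exact MP_mem hi.1.1.1 hi.1.1.2.2.2 (mem_Ico.2 ⟨h6, by omega⟩)
      refine (sum_le_card_nsmul _ _ _ h4).trans ?_
      rw [nsmul_eq_mul]
      calc (#((E.filter (fun i => ¬ i < 2 ^ k0)).filter (fun i => Nat.log 2 i = k)) : ℝ) *
            (1 / 2 ^ k) ≤ 2 ^ k / i0 * (1 / 2 ^ k) :=
            mul_le_mul_of_nonneg_right h5 (by positivity)
        _ = 1 / i0 := by field_simp
    refine (sum_le_sum h3).trans ?_
    rw [sum_const, nsmul_eq_mul, Nat.card_Ico, mul_one_div]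
    rcases Nat.eq_zero_or_pos i0 with h4 | h4
    · subst h4; simp
    · have h5 : (0 : ℝ) < i0 := by exact_mod_cast h4
      rw [div_le_one h5]
      exact_mod_cast Nat.sub_le _ _
  linarith

end RD69
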