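import Pool.Agent.LibRD69B.FT
import Pool.Agent.LibRD69B.MP

/-!
ROW MT.  The middle distances, count.
PROOF.  `mid_point` and a union bound: the set is contained in `{s ≤ #sv (.. Ico 1 (1 + 2^k0) ..)}` union over `k ∈ Ico k0 i0`
of `{2^k/i0 < #sv (.. Ico (2^k) (2^k+2^k) ..)}`.  `markov_tails` with `a = 1, y = 2^k0` and with `a = y = 2^k, T = 2^k/i0`
(`2^k ≤ 2^i0 ≤ z`, `2 s ≤ 2^k0 ≤ 2^k`): `(C 2^k log(2s)/log z + 2 s)/(2^k/i0) = i0 (C log(2s)/log z + 2s/2^k) ≤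
i0 (C log(2s)/log z + 2s/2^k0)`.  At most `i0` values of `k`.
-/

open Finset

namespace RD69

theorem mid_count : ∃ (C : ℝ) (C₀ : ℕ), 1 ≤ C ∧ 1 ≤ C₀ ∧ ∀ (s x z k0 i0 : ℕ), 1 ≤ s →
    2 * s ≤ 2 ^ k0 → k0 ≤ i0 → 2 ^ i0 ≤ z → z ^ (C₀ * s) ≤ x →
    (#{n ∈ Icc 1 x | 2 < ∑ i ∈ (dist n).filter (fun i => 4 * s ≤ i ∧ i < 2 ^ i0 ∧ z < n - i),
        1 / (i : ℝ)} : ℝ) ≤
      18 * x * (C * 2 ^ k0 * Real.log (2 * s) / Real.log z) ^ s +
      i0 * (18 * x * (i0 * (C * Real.log (2 * s) / Real.log z + 2 * s / 2 ^ k0)) ^ s) := by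
  classical
  obtain ⟨C, C₀, hC, hC₀, hm⟩ := markov_tails
  refine ⟨C, C₀, hC, hC₀, fun s x z k0 i0 hs h2s hk0 h2z hzx => ?_⟩
  have hz2 : 2 ≤ z := by
    have : 2 ^ k0 ≤ 2 ^ i0 := Nat.pow_le_pow_right (by norm_num) hk0
    omega
  have hlz : 0 < Real.log z := Real.log_pos (by
    have : (2 : ℝ) ≤ z := by exact_mod_cast hz2
    linarith)
  have hs1 : (1 : ℝ) ≤ s := by exact_mod_cast hs
  have hls : 0 < Real.log (2 * s) := Real.log_pos (by linarith)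
  have hC0 : 0 ≤ C := by linarith
  set S0 : Finset ℕ := {n ∈ Icc 1 x | s ≤ #(sv (2 * s) z (Ico 1 (1 + 2 ^ k0)) n)} with hS0
  set S : ℕ → Finset ℕ := fun k =>
    {n ∈ Icc 1 x | (2 ^ k / i0 : ℝ) < #(sv (2 * s) z (Ico (2 ^ k) (2 ^ k + 2 ^ k)) n)} with hS
  have hsub : {n ∈ Icc 1 x | 2 < ∑ i ∈ (dist n).filter
      (fun i => 4 * s ≤ i ∧ i < 2 ^ i0 ∧ z < n - i), 1 / (i : ℝ)} ⊆
      S0 ∪ (Ico k0 i0).biUnion S := by
    intro n hn
    rw [mem_filter] at hn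
    rw [mem_union]
    by_contra hcon
    rw [not_or] at hcon
    obtain ⟨hc1, hc2⟩ := hcon
    have h1 : #(sv (2 * s) z (Ico 1 (1 + 2 ^ k0)) n) < s := by
      by_contra h
      exact hc1 (mem_filter.2 ⟨hn.1, not_lt.1 h⟩)
    have h2 : ∀ k ∈ Ico k0 i0,
        (#(sv (2 * s) z (Ico (2 ^ k) (2 ^ k + 2 ^ k)) n) : ℝ) ≤ 2 ^ k / i0 := by
      intro k hk
      by_contra h
      exact hc2 (mem_biUnion.2 ⟨k, hk, mem_filter.2 ⟨hn.1, not_le.1 h⟩⟩)
    have := mid_point s z k0 i0 n hs h1 h2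
    linarith [hn.2]
  have hc0 : (#S0 : ℝ) ≤ 18 * x * (C * 2 ^ k0 * Real.log (2 * s) / Real.log z) ^ s := by
    have h := (hm s x (2 ^ k0) z 1 hs h2s
      ((Nat.pow_le_pow_right (by norm_num) hk0).trans h2z) hzx).1
    push_cast at h
    exact h
  have hck : ∀ k ∈ Ico k0 i0, (#(S k) : ℝ) ≤
      18 * x * (i0 * (C * Real.log (2 * s) / Real.log z + 2 * s / 2 ^ k0)) ^ s := by
    intro k hk
    rw [mem_Ico] at hk
    have hi0 : (0 : ℝ) < i0 := by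
      have : 0 < i0 := by omega
      exact_mod_cast this
    have h2k : 2 ^ k0 ≤ 2 ^ k := Nat.pow_le_pow_right (by norm_num) hk.1
    have h := (hm s x (2 ^ k) z (2 ^ k) hs (h2s.trans h2k)
      ((Nat.pow_le_pow_right (by norm_num) hk.2.le).trans h2z) hzx).2 (2 ^ k / i0) (by positivity)
    refine h.trans ?_
    apply mul_le_mul_of_nonneg_left _ (by positivity)
    refine pow_le_pow_left₀ (by positivity) ?_ s
    have e1 : (C * ((2 ^ k : ℕ) : ℝ) * Real.log (2 * s) / Real.log z + 2 * s) / (2 ^ k / i0) =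
        i0 * (C * Real.log (2 * s) / Real.log z + 2 * s / 2 ^ k) := by
      push_cast
      field_simp
    rw [e1]
    apply mul_le_mul_of_nonneg_left _ hi0.le
    have h3 : (2 : ℝ) * s / 2 ^ k ≤ 2 * s / 2 ^ k0 := by
      apply div_le_div_of_nonneg_left (by positivity) (by positivity)
      exact_mod_cast h2k
    linarith
  have hcard := (card_le_card hsub).trans ((card_union_le _ _).trans
    (Nat.add_le_add_left card_biUnion_le _))
  have hcard' : (#{n ∈ Icc 1 x | 2 < ∑ i ∈ (dist n).filter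
      (fun i => 4 * s ≤ i ∧ i < 2 ^ i0 ∧ z < n - i), 1 / (i : ℝ)} : ℝ) ≤
      #S0 + ∑ k ∈ Ico k0 i0, (#(S k) : ℝ) := by exact_mod_cast hcard
  refine hcard'.trans (add_le_add hc0 ?_)
  refine (sum_le_sum hck).trans ?_
  rw [sum_const, nsmul_eq_mul, Nat.card_Ico]
  apply mul_le_mul_of_nonneg_right _ (by positivity)
  exact_mod_cast Nat.sub_le _ _

end RD69
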