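import Pool.Agent.LibRD69.PW
import Pool.Agent.LibRD13.Def

/-!
ROW SD.  Long distances and dyadic counts.  (Compare `RD.f_le` in LibRD13/Tri.lean.)
PROOF.  A distance `i ∈ dist n`, `2^i0 ≤ i`, lies in `[2^k, 2^(k+1))` with `k = Nat.log 2 i`, `i0 ≤ k ≤ Nat.log 2 n`
(`i < n`), `1/i ≤ 1/2^k`, and for fixed `k` the number of such `i` is at most `NB (2^k) (2^k) n`
(`i = 2^k + y`, `y ∈ range (2^k)`, `2^k + y < n`, `n - (2^k+y)` prime).  Fibre the sum over `k` (`sum_fiberwise_of_maps_to`).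
-/

open Finset

namespace RD69

theorem dist_large (n i0 : ℕ) :
    ∑ i ∈ (dist n).filter (fun i => 2 ^ i0 ≤ i), 1 / (i : ℝ) ≤
      ∑ k ∈ Ico i0 (Nat.log 2 n + 1), (RD.NB (2 ^ k) (2 ^ k) n : ℝ) / 2 ^ k := by
  classical
  have hmaps : ∀ i ∈ (dist n).filter (fun i => 2 ^ i0 ≤ i),
      Nat.log 2 i ∈ Ico i0 (Nat.log 2 n + 1) := by
    intro i hi
    rw [mem_filter] at hi
    unfold dist at hi
    rw [mem_filter, mem_range] at hi
    rw [mem_Ico]
    constructor
    · exact (Nat.le_log_iff_pow_le (by norm_num) (by omega)).2 hi.2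
    · have := Nat.log_mono_right (b := 2) hi.1.1.le
      omega
  rw [← sum_fiberwise_of_maps_to hmaps]
  refine sum_le_sum fun k hk => ?_
  have h1 : ∀ i ∈ ((dist n).filter (fun i => 2 ^ i0 ≤ i)).filter (fun i => Nat.log 2 i = k),
      1 / (i : ℝ) ≤ 1 / 2 ^ k := by
    intro i hi
    rw [mem_filter, mem_filter] at hi
    have h2 : i ≠ 0 := by
      have h3 := hi.1.1
      unfold dist at h3
      rw [mem_filter] at h3
      omega
    have h4 : 2 ^ k ≤ i := by
      rw [← hi.2]
      exact Nat.pow_log_le_self 2 h2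
    have h5 : (2 : ℝ) ^ k ≤ i := by exact_mod_cast h4
    exact one_div_le_one_div_of_le (by positivity) h5
  refine (sum_le_card_nsmul _ _ _ h1).trans ?_
  rw [nsmul_eq_mul, mul_one_div]
  refine div_le_div_of_nonneg_right ?_ (by positivity)
  rw [RD.NB, Nat.cast_le]
  refine card_le_card_of_injOn (fun i => i - 2 ^ k) ?_ ?_
  · intro i hi
    have hi' := Finset.mem_coe.1 hi
    rw [mem_filter, mem_filter] at hi'
    have h3 := hi'.1.1
    unfold dist at h3
    rw [mem_filter, mem_range] at h3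
    have h4 : 2 ^ k ≤ i := by
      rw [← hi'.2]
      exact Nat.pow_log_le_self 2 (by omega)
    have h5 : i < 2 ^ (k + 1) := by
      rw [← hi'.2]
      exact Nat.lt_pow_succ_log_self (by norm_num) i
    rw [pow_succ] at h5
    have h6 : 2 ^ k + (i - 2 ^ k) = i := by omega
    have h7 : i - 2 ^ k < 2 ^ k := by omega
    rw [Finset.mem_coe, mem_filter, mem_range]
    refine ⟨h7, ?_⟩
    show 2 ^ k + (i - 2 ^ k) < n ∧ (n - (2 ^ k + (i - 2 ^ k))).Prime
    rw [h6]
    exact ⟨h3.1, h3.2.2⟩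
  · intro i hi j hj hij
    have hi' := Finset.mem_coe.1 hi
    have hj' := Finset.mem_coe.1 hj
    rw [mem_filter, mem_filter] at hi' hj'
    have h3 := hi'.1.1
    have h3' := hj'.1.1
    unfold dist at h3 h3'
    rw [mem_filter, mem_range] at h3 h3'
    have h4 : 2 ^ k ≤ i := by
      rw [← hi'.2]
      exact Nat.pow_log_le_self 2 (by omega)
    have h4' : 2 ^ k ≤ j := by
      rw [← hj'.2]
      exact Nat.pow_log_le_self 2 (by omega)
    simp only at hij
    omega

end RD69
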